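import Mathlib
import Pool.Agent.Lib.RM48.Alg

/-!
# Category: the Kuratowski–Ulam theorem for the Cohen space
-/

set_option autoImplicit false

open Set Filter Topology MeasureTheory

namespace Pool.Agent.Lib.RM48

/-- Kuratowski–Ulam: sections of comeagre sets. -/
theorem ku {X Y : Type*} [TopologicalSpace X] [TopologicalSpace Y] [SecondCountableTopology Y]
    {E : Set (X × Y)} (h : E ∈ residual (X × Y)) :
    ∀ᶠ x in residual X, ∀ᶠ y in residual Y, (x, y) ∈ E := by
  rw [mem_residual_iff] at h
  obtain ⟨S, hSo, hSd, hSc, hSE⟩ := h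
  have key : ∀ t ∈ S, ∀ᶠ x in residual X, ∀ᶠ y in residual Y, (x, y) ∈ t := by
    intro t ht
    let b := TopologicalSpace.countableBasis Y
    have hbc : b.Countable := TopologicalSpace.countable_countableBasis Y
    have hb : TopologicalSpace.IsTopologicalBasis b := TopologicalSpace.isBasis_countableBasis Y
    have h1 : ∀ B ∈ b, ∀ᶠ x in residual X, ∃ y ∈ B, (x, y) ∈ t := by
      intro B hB
      have hBo : IsOpen B := hb.isOpen hB
      have hBne : B.Nonempty := TopologicalSpace.nonempty_of_mem_countableBasis hB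
      have e : {x | ∃ y ∈ B, (x, y) ∈ t} = Prod.fst '' (t ∩ univ ×ˢ B) := by
        ext x
        constructor
        · rintro ⟨y, hy, hxy⟩
          exact ⟨(x, y), ⟨hxy, trivial, hy⟩, rfl⟩
        · rintro ⟨⟨x', y⟩, ⟨hxy, _, hy⟩, rfl⟩
          exact ⟨y, hy, hxy⟩
      have ho : IsOpen {x | ∃ y ∈ B, (x, y) ∈ t} := by
        rw [e]
        exact isOpenMap_fst _ ((hSo t ht).inter (isOpen_univ.prod hBo))
      refine residual_of_dense_open ho ?_
      rw [dense_iff_inter_open]
      intro W hW hWne
      obtain ⟨⟨x, y⟩, h2, h3⟩ := (hSd t ht).inter_open_nonempty (W ×ˢ B) (hW.prod hBo)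
        (hWne.prod hBne)
      exact ⟨x, h2.1, y, h2.2, h3⟩
    have h2 : ∀ᶠ x in residual X, ∀ B ∈ b, ∃ y ∈ B, (x, y) ∈ t :=
      (eventually_countable_ball hbc).2 h1
    refine h2.mono fun x hx => ?_
    refine residual_of_dense_open ((hSo t ht).preimage (Continuous.prodMk_right x)) ?_
    refine hb.dense_iff.2 fun B hB _ => ?_
    obtain ⟨y, hy, hxy⟩ := hx B hB
    exact ⟨y, hy, hxy⟩
  have h3 : ∀ᶠ x in residual X, ∀ t ∈ S, ∀ᶠ y in residual Y, (x, y) ∈ t :=
    (eventually_countable_ball hSc).2 key
  refine h3.mono fun x hx => ?_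
  have h4 : ∀ᶠ y in residual Y, ∀ t ∈ S, (x, y) ∈ t := (eventually_countable_ball hSc).2 hx
  exact h4.mono fun y hy => hSE (mem_sInter.2 hy)

lemma residual_neBot (X : Type*) [TopologicalSpace X] [BaireSpace X] [Nonempty X] :
    (residual X).NeBot := by
  refine ⟨fun h => ?_⟩
  have h1 : (∅ : Set X) ∈ residual X := by rw [h]; trivial
  exact absurd (dense_of_mem_residual h1).nonempty not_nonempty_empty

lemma baireMeas_gen {α : Type*} [t : TopologicalSpace α] (m : MeasurableSpace α)
    (hm : m ≤ borel α) {E : Set α} (hE : @MeasurableSet α m E) : BaireMeasurableSet E := by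
  have h2 : @MeasurableSet α (borel α) E := hm E hE
  clear hE
  revert E
  let _ : MeasurableSpace α := borel α
  have : BorelSpace α := ⟨rfl⟩
  intro E h2
  exact MeasurableSet.baireMeasurableSet h2

/-- The space of the Cohen reals. -/
abbrev CX (K : Type) : Type := K × ℕ → Bool

section

variable {K : Type} [DecidableEq K]

/-- Replace the `l`-th Cohen real. -/
def upd (l : K) (p : CX K × (ℕ → Bool)) : CX K := fun k => if k.1 = l then p.2 k.2 else p.1 k

lemma upd_self (l : K) (x : CX K) : upd l (x, fun n => x (l, n)) = x := by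
  funext k
  unfold upd
  split_ifs with h
  · subst h; rfl
  · rfl

lemma upd_apply (l : K) (x : CX K) (u : ℕ → Bool) (n : ℕ) : upd l (x, u) (l, n) = u n := by
  simp [upd]

lemma continuous_upd (l : K) : Continuous (upd l) := by
  refine continuous_pi fun k => ?_
  unfold upd
  by_cases h : k.1 = l
  · simp only [h, if_true]
    exact (continuous_apply k.2).comp continuous_snd
  · simp only [h, if_false]
    exact (continuous_apply k).comp continuous_fst

lemma isOpenMap_upd (l : K) : IsOpenMap (upd l) := by
  refine IsOpenMap.of_sections fun p => ?_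
  refine ⟨fun z => (fun k => if k.1 = l then p.1 k else z k, fun n => z (l, n)), ?_, ?_, ?_⟩
  · refine Continuous.continuousAt ?_
    refine Continuous.prodMk ?_ ?_
    · refine continuous_pi fun k => ?_
      by_cases h : k.1 = l
      · simp only [h, if_true]
        exact continuous_const
      · simp only [h, if_false]
        exact continuous_apply k
    · exact continuous_pi fun n => continuous_apply (l, n)
  · refine Prod.ext ?_ ?_
    · funext k
      by_cases h : k.1 = l
      · simp [h]
      · simp [upd, h]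
    · funext n
      simp [upd]
  · intro z
    funext k
    by_cases h : k.1 = l
    · obtain ⟨k1, k2⟩ := k
      simp only at h
      subst h
      simp [upd]
    · simp [upd, h]

omit [DecidableEq K] in
lemma baireMeas {E : Set (CX K)} (hE : MeasurableSet E) : BaireMeasurableSet E :=
  baireMeas_gen _ pi_le_borel_pi hE

/-- A measurable set all of whose sections in the direction of a Cohen real are comeagre is
comeagre. -/
theorem residual_of_upd (l : K) {E : Set (CX K)} (hE : MeasurableSet E)
    (h : ∀ x, ∀ᶠ u in residual (ℕ → Bool), upd l (x, u) ∈ E) : E ∈ residual (CX K) := by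
  obtain ⟨U, hU, hEU⟩ := (baireMeas hE).compl.residualEq_isOpen
  rcases U.eq_empty_or_nonempty with rfl | hne
  · have h1 : ∀ᶠ z in residual (CX K), z ∈ E := by
      refine (hEU.mem_iff).mono fun z hz => ?_
      by_contra hcon
      exact hz.1 hcon
    exact h1
  · exfalso
    have h1 : ∀ᶠ p in residual (CX K × (ℕ → Bool)), (upd l p ∈ Eᶜ ↔ upd l p ∈ U) :=
      (tendsto_residual_of_isOpenMap (continuous_upd l) (isOpenMap_upd l)).eventually hEU.mem_iff
    have h2 := ku h1
    obtain ⟨x, hx, hx2⟩ := (dense_of_mem_residual h2).inter_open_nonempty U hU hne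
    have h3 : IsOpen {u : ℕ → Bool | upd l (x, u) ∈ U} :=
      hU.preimage ((continuous_upd l).comp (Continuous.prodMk_right x))
    have h4 : ∀ᶠ u in residual (ℕ → Bool), upd l (x, u) ∉ U := by
      filter_upwards [h x, hx2] with u h5 h6 h7
      exact (h6.2 h7) h5
    obtain ⟨u, hu, hu2⟩ := (dense_of_mem_residual h4).inter_open_nonempty _ h3
      ⟨fun n => x (l, n), by rw [mem_ofPred_eq, upd_self]; exact hx⟩
    exact hu2 hu

omit [DecidableEq K] in
/-- open sets contain cylinders -/
lemma exists_cyl {U : Set (CX K)} (hU : IsOpen U) {x : CX K} (hx : x ∈ U) :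
    ∃ s : Finset (K × ℕ), ∀ z : CX K, (∀ i ∈ s, z i = x i) → z ∈ U := by
  rw [isOpen_pi_iff] at hU
  obtain ⟨s, u, hu, hsub⟩ := hU x hx
  refine ⟨s, fun z hz => hsub ?_⟩
  intro i hi
  rw [hz i hi]
  exact (hu i hi).2

end

end Pool.Agent.Lib.RM48
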