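import Mathlib
import Pool.Agent.Lib.RM48.Defs

/-!
# Definitions for the statement: `max {𝔰, cov(ℳ)} < 𝔰𝔰_cc` in a model of set theory
-/

set_option autoImplicit false

open Filter Topology

namespace Pool.Agent.Lib.RM48

open Pool.Agent.Lib.SymZF

/-! ### Series -/

/-- The series with terms `u` converges. -/
def SeriesConverges (u : ℕ → ℝ) : Prop :=
  ∃ L : ℝ, Tendsto (fun n => ∑ i ∈ Finset.range n, u i) atTop (𝓝 L)

/-- The series with terms `u` converges conditionally. -/
def CondConverges (u : ℕ → ℝ) : Prop :=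
  SeriesConverges u ∧ ¬ SeriesConverges fun i => |u i|

/-- The terms of the subseries of `a` along the increasing enumeration of `X`. -/
noncomputable def subterms (a : ℕ → ℚ) (X : Set ℕ) : ℕ → ℝ :=
  fun k => (a (Nat.nth (fun i => i ∈ X) k) : ℝ)

/-! ### The Baire space -/

/-- The set of natural numbers which codes the function `u : ω → ω`. -/
def graph (u : ℕ → ℕ) : Set ℕ := {n | ∃ i, Nat.pair i (u i) = n}

/-- The enumeration of the rational numbers by `m = ⟨⟨p, q⟩, r⟩ ↦ (p - q) / (r + 1)`. -/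
def rat (m : ℕ) : ℚ :=
  (((Nat.unpair (Nat.unpair m).1).1 : ℚ) - ((Nat.unpair (Nat.unpair m).1).2 : ℚ)) /
    (((Nat.unpair m).2 : ℚ) + 1)

/-- The open set `D_m(c)` of the Baire space coded by the set `c` of natural numbers: the union
of the basic open sets given by the finite sequences `s` with `⟨m, s⟩ ∈ c`. -/
def DSet (c : Set ℕ) (m : ℕ) : Set (ℕ → ℕ) :=
  {u | ∃ s : List ℕ, Nat.pair m (Encodable.encode s) ∈ c ∧
    ∀ i (h : i < s.length), u i = s[i]}

/-- `c` codes a sequence of dense open sets `D_m(c)` of the Baire space. -/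
def DenseCode (c : Set ℕ) : Prop := ∀ m, Dense (DSet c m)

section

variable {M : Type} (E : M → M → Prop)

/-- `x` codes in `M` the function `u : ω → ω`. -/
def IsFnc (x : M) (u : ℕ → ℕ) : Prop := IsReal E x ∧ rl E x = graph u

/-- `N` is a meagre set in `M`: in `M` there is a sequence of dense open sets `D_m` of the Baire
space such that no element of `N` is in all of them. -/
def IsMeagre' (N : M) : Prop := ∃ c, IsReal E c ∧ DenseCode (rl E c) ∧
  ∀ x u, IsFnc E x u → E x N → ∃ m, u ∉ DSet (rl E c) m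

/-- `f` is a function on the set `A` in `M`, and its values satisfy `P`. -/
def FnOn (f A : M) (P : M → Prop) : Prop :=
  (∀ a, E a A → ∃! N, Rel E f a N) ∧ ∀ a N, E a A → Rel E f a N → P N

/-- `𝔰 ≤ |A|` in `M`: there is a splitting family indexed by `A`. -/
def SplitLe (A : M) : Prop := ∃ f, FnOn E f A (IsReal E) ∧
  ∀ X, IsReal E X → (rl E X).Infinite → ∃ a S, E a A ∧ Rel E f a S ∧
    (rl E X ∩ rl E S).Infinite ∧ (rl E X \ rl E S).Infinite

/-- `cov(ℳ) ≤ |A|` in `M`: there is a family of meagre sets indexed by `A` which covers the Baire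
space. -/
def CovMeagreLe (A : M) : Prop := ∃ f, FnOn E f A (IsMeagre' E) ∧
  ∀ x u, IsFnc E x u → ∃ a N, E a A ∧ Rel E f a N ∧ E x N

/-- `|A| < 𝔰𝔰_cc` in `M`: for every family of infinite coinfinite sets of natural numbers indexed
by `A` there is a conditionally convergent series of rationals `a` in `M` such that for no `X` in
the family the subseries of `a` along `X` is conditionally convergent. -/
def LtSScc (A : M) : Prop := ∀ f,
  FnOn E f A (fun X => IsReal E X ∧ (rl E X).Infinite ∧ (rl E X)ᶜ.Infinite) →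
    ∃ x u, IsFnc E x u ∧ CondConverges (fun i => (rat (u i) : ℝ)) ∧
      ∀ a X, E a A → Rel E f a X → ¬ CondConverges (subterms (fun i => rat (u i)) (rl E X))

/-- `max {𝔰, cov(ℳ)} < 𝔰𝔰_cc` holds in `M`: there is a set `A` in `M` with `𝔰 ≤ |A|`,
`cov(ℳ) ≤ |A|` and `|A| < 𝔰𝔰_cc`. -/
def MaxLtSScc : Prop := ∃ A, SplitLe E A ∧ CovMeagreLe E A ∧ LtSScc E A

end

end Pool.Agent.Lib.RM48
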