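import Mathlib
import Pool.Agent.Lib.MP_d37bef_lc.Basic
import Pool.Agent.Lib.RM48.SS.Defs
import Pool.Agent.Lib.RM48.Osc.Density

/-!
# Random series
-/

set_option autoImplicit false

open Cardinal Filter Topology MeasureTheory ProbabilityTheory

namespace Pool.Agent.Lib.RM48

open Pool.Agent.Lib.MP_d37bef_lc (psum psum_succ)

/-! ### Components of a set of natural numbers -/

/-- The starting points of the gaps of `X`. -/
def gaps (X : Set ℕ) : Set ℕ := {j | 0 < j ∧ j - 1 ∈ X ∧ j ∉ X}

lemma gaps_infinite {X : Set ℕ} (h1 : X.Infinite) (h2 : Xᶜ.Infinite) : (gaps X).Infinite := by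
  classical
  refine Set.infinite_of_not_bddAbove ?_
  rintro ⟨b, hb⟩
  obtain ⟨x, hx, hbx⟩ := h1.exists_gt b
  have e : ∃ y, y ∈ Xᶜ ∧ x < y := h2.exists_gt x
  have hs := Nat.find_spec e
  have h3 : Nat.find e ∈ gaps X := by
    refine ⟨by omega, ?_, hs.1⟩
    by_contra hcon
    rcases Nat.lt_or_ge x (Nat.find e - 1) with h | h
    · exact Nat.find_min e (by omega) ⟨hcon, h⟩
    · have h4 : Nat.find e - 1 = x := by omega
      exact hcon (by rw [h4]; exact hx)
  have := hb h3
  omega

/-- The components of `X` from some point on are the intervals `[x k, y (k+1))`. -/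
structure Comps (X : Set ℕ) (x y : ℕ → ℕ) : Prop where
  yx : ∀ k, y k < x k
  xy : ∀ k, x k < y (k + 1)
  out : ∀ k i, y k ≤ i → i < x k → i ∉ X
  inn : ∀ k i, x k ≤ i → i < y (k + 1) → i ∈ X

/-- the `k`-th starting point of a gap -/
noncomputable def gy (X : Set ℕ) (k : ℕ) : ℕ := Nat.nth (fun j => j ∈ gaps X) k

lemma exists_comps (X : Set ℕ) (h1 : X.Infinite) (h2 : Xᶜ.Infinite) :
    ∃ x, Comps X x (gy X) := by
  classical
  have hg : (Set.ofPred fun j => j ∈ gaps X).Infinite := gaps_infinite h1 h2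
  have hmem : ∀ k, gy X k ∈ gaps X := fun k => Nat.nth_mem_of_infinite hg k
  have hmono : StrictMono (gy X) := Nat.nth_strictMono hg
  have hno : ∀ k j, gy X k < j → j < gy X (k + 1) → j ∉ gaps X := by
    intro k j hj1 hj2 hj
    obtain ⟨n, hn⟩ : ∃ n, gy X n = j := ⟨Nat.count (fun j => j ∈ gaps X) j, Nat.nth_count hj⟩
    rw [← hn] at hj1 hj2
    have := hmono.lt_iff_lt.1 hj1
    have := hmono.lt_iff_lt.1 hj2
    omega
  have e : ∀ k, ∃ x, x ∈ X ∧ gy X k < x := fun k => h1.exists_gt _
  refine ⟨fun k => Nat.find (e k), fun k => (Nat.find_spec (e k)).2, ?_, ?_, ?_⟩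
  · intro k
    by_contra hcon
    have h3 := (hmem (k + 1)).2.1
    have h4 : gy X k < gy X (k + 1) := hmono (Nat.lt_succ_self k)
    rcases Nat.lt_or_ge (gy X k) (gy X (k + 1) - 1) with h | h
    · exact Nat.find_min (e k) (m := gy X (k + 1) - 1) (by omega) ⟨h3, h⟩
    · have h5 : gy X (k + 1) - 1 = gy X k := by omega
      rw [h5] at h3
      exact (hmem k).2.2 h3
  · intro k i hi1 hi2 hiX
    rcases hi1.eq_or_lt with h | h
    · exact (hmem k).2.2 (h ▸ hiX)
    · exact Nat.find_min (e k) hi2 ⟨hiX, h⟩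
  · intro k i hi1 hi2
    induction i, hi1 using Nat.le_induction with
    | base => exact (Nat.find_spec (e k)).1
    | succ i hi ih =>
      by_contra hcon
      have h3 := ih (by omega)
      have h4 := (Nat.find_spec (e k)).2
      refine hno k (i + 1) (by omega) hi2 ⟨by omega, ?_, hcon⟩
      simpa using h3

lemma Comps.mono {X : Set ℕ} {x y : ℕ → ℕ} (h : Comps X x y) : StrictMono y :=
  strictMono_nat_of_lt_succ fun k => (h.yx k).trans (h.xy k)

/-! ### Independent runs -/

/-- The event that the bits on `T` follow the pattern `w`. -/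
def matchSet (T : Finset ℕ) (w : ℕ → Bool) : Set (ℕ → Bool) := {ε | ∀ i ∈ T, ε i = w i}

lemma matchSet_eq (T : Finset ℕ) (w : ℕ → Bool) : matchSet T w = Set.pi T fun i => {w i} := by
  ext ε
  simp [matchSet, Set.mem_pi]

lemma coin_matchSet (T : Finset ℕ) (w : ℕ → Bool) :
    coin (matchSet T w) = 2⁻¹ ^ T.card := by
  have h0 : ∀ b : Bool, (PMF.uniformOfFintype Bool).toMeasure {b} = 2⁻¹ := by
    intro b
    rw [PMF.toMeasure_apply_singleton _ _ (measurableSet_singleton b)]
    simp
  rw [matchSet_eq, coin, Measure.infinitePi_pi _ (fun i _ => measurableSet_singleton _)]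
  simp [h0]

lemma measurableSet_matchSet (T : Finset ℕ) (w : ℕ → Bool) : MeasurableSet (matchSet T w) := by
  rw [matchSet_eq]
  exact MeasurableSet.pi T.countable_toSet fun i _ => measurableSet_singleton _

/-- The event that none of the first `K` runs follows the pattern. -/
def failSet (T : ℕ → Finset ℕ) (w : ℕ → Bool) (K : ℕ) : Set (ℕ → Bool) :=
  {ε | ∀ r < K, ε ∉ matchSet (T r) w}

lemma coin_failSet (T : ℕ → Finset ℕ) (w : ℕ → Bool) (m : ℕ) (hT : ∀ r, (T r).card = m)
    (hdisj : ∀ r r', r < r' → Disjoint (T r) (T r')) (K : ℕ) :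
    coin (failSet T w K) = (1 - 2⁻¹ ^ m) ^ K := by
  induction K with
  | zero => simp [failSet]
  | succ K ih =>
    classical
    let S : Finset ℕ := (Finset.range K).biUnion T
    have hST : Disjoint S (T K) := by
      rw [Finset.disjoint_biUnion_left]
      intro r hr
      exact hdisj r K (Finset.mem_range.1 hr)
    have hind : iIndepFun (fun (i : ℕ) (ε : ℕ → Bool) => ε i) coin :=
      iIndepFun_infinitePi (X := fun _ (b : Bool) => b) (fun _ => measurable_id)
    have hind2 := hind.indepFun_finset S (T K) hST (fun i => measurable_pi_apply i)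
    let A : Set (S → Bool) := {x | ∀ r < K, ¬ ∀ i : S, i.1 ∈ T r → x i = w i.1}
    let B : Set (T K → Bool) := {x | ¬ ∀ i : T K, x i = w i.1}
    have hA : (fun (ε : ℕ → Bool) (i : S) => ε i.1) ⁻¹' A = failSet T w K := by
      ext ε
      simp only [Set.mem_preimage, A, Set.mem_ofPred_eq, failSet, matchSet]
      refine forall₂_congr fun r hr => not_congr ?_
      constructor
      · intro h i hi
        exact h ⟨i, Finset.mem_biUnion.2 ⟨r, Finset.mem_range.2 hr, hi⟩⟩ hi
      · intro h i hi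
        exact h i.1 hi
    have hB : (fun (ε : ℕ → Bool) (i : T K) => ε i.1) ⁻¹' B = (matchSet (T K) w)ᶜ := by
      ext ε
      simp [B, matchSet]
    have hdecomp : failSet T w (K + 1) = failSet T w K ∩ (matchSet (T K) w)ᶜ := by
      ext ε
      simp only [failSet, Set.mem_ofPred_eq, Set.mem_inter_iff, Set.mem_compl_iff]
      constructor
      · intro h
        exact ⟨fun r hr => h r (by omega), h K (by omega)⟩
      · rintro ⟨h1, h2⟩ r hr
        rcases Nat.lt_succ_iff_lt_or_eq.1 hr with h | h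
        · exact h1 r h
        · exact h ▸ h2
    have hmul := hind2.measure_inter_preimage_eq_mul A B (Set.Finite.measurableSet (Set.toFinite A))
      (Set.Finite.measurableSet (Set.toFinite B))
    rw [hA, hB] at hmul
    rw [hdecomp, hmul, ih, prob_compl_eq_one_sub (measurableSet_matchSet _ _), coin_matchSet, hT,
      pow_succ]

lemma fail_bound (n : ℕ) :
    ((1 : ENNReal) - 2⁻¹ ^ (2 * (n + 1))) ^ (n * 4 ^ (n + 1)) ≤
      ENNReal.ofReal (Real.exp (-n)) := by
  have h4 : (0 : ℝ) < 4 ^ (n + 1) := by positivity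
  have h1 : (1 : ENNReal) - 2⁻¹ ^ (2 * (n + 1)) =
      ENNReal.ofReal (1 - ((4 : ℝ) ^ (n + 1))⁻¹) := by
    rw [ENNReal.ofReal_sub _ (by positivity), ENNReal.ofReal_one, pow_mul,
      ENNReal.ofReal_inv_of_pos h4, ENNReal.ofReal_pow (by norm_num)]
    congr 1
    rw [← ENNReal.inv_pow, ← ENNReal.inv_pow]
    congr 2
    rw [show ENNReal.ofReal 4 = 4 by norm_num]
    norm_num
  have h2 : 0 ≤ 1 - ((4 : ℝ) ^ (n + 1))⁻¹ := by
    have : ((4 : ℝ) ^ (n + 1))⁻¹ ≤ 1 := inv_le_one_of_one_le₀ (one_le_pow₀ (by norm_num))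
    linarith
  rw [h1, ← ENNReal.ofReal_pow h2]
  apply ENNReal.ofReal_le_ofReal
  have h3 : 1 - ((4 : ℝ) ^ (n + 1))⁻¹ ≤ Real.exp (-((4 : ℝ) ^ (n + 1))⁻¹) := by
    have := Real.add_one_le_exp (-((4 : ℝ) ^ (n + 1))⁻¹)
    linarith
  calc (1 - ((4 : ℝ) ^ (n + 1))⁻¹) ^ (n * 4 ^ (n + 1))
      ≤ Real.exp (-((4 : ℝ) ^ (n + 1))⁻¹) ^ (n * 4 ^ (n + 1)) := pow_le_pow_left₀ h2 h3 _
    _ = Real.exp (-n) := by
      rw [← Real.exp_nat_mul]
      congr 1
      push_cast
      field_simp

lemma null_of_frequently (E : Set (ℕ → Bool))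
    (h : ∀ N, ∃ n ≥ N, coin E ≤ ENNReal.ofReal (Real.exp (-(n : ℕ)))) : coin E = 0 := by
  have ht : Tendsto (fun n : ℕ => ENNReal.ofReal (Real.exp (-(n : ℕ)))) atTop (𝓝 0) := by
    rw [← ENNReal.ofReal_zero]
    refine ENNReal.tendsto_ofReal ?_
    exact Real.tendsto_exp_neg_atTop_nhds_zero.comp tendsto_natCast_atTop_atTop
  by_contra hne
  have hpos : 0 < coin E := pos_iff_ne_zero.2 hne
  obtain ⟨N, hN⟩ := eventually_atTop.1 (ht.eventually (gt_mem_nhds hpos))
  obtain ⟨n, hn, hle⟩ := h N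
  exact absurd (hN n hn) hle.not_gt

/-! ### The random series -/

section series

/-- The partial sums: the bits `ε i`, scaled by the block function `b`. -/
def rs (b : ℕ → ℕ) (ε : ℕ → Bool) (i : ℕ) : ℚ :=
  if ε i = true then 1 / ((b i : ℚ) + 1) else 0

/-- The random series. -/
def ra (b : ℕ → ℕ) (ε : ℕ → Bool) (i : ℕ) : ℚ := rs b ε (i + 1) - rs b ε i

variable (b : ℕ → ℕ)

lemma rs_tendsto (hb : Tendsto b atTop atTop) (ε : ℕ → Bool) :
    Tendsto (fun i => (rs b ε i : ℝ)) atTop (𝓝 0) := by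
  rw [Metric.tendsto_atTop]
  intro δ hδ
  obtain ⟨N, hN⟩ := exists_nat_one_div_lt hδ
  obtain ⟨M, hM⟩ := eventually_atTop.1 (hb.eventually (eventually_ge_atTop N))
  refine ⟨M, fun i hi => ?_⟩
  rw [Real.dist_eq, sub_zero]
  have hb' : (N : ℝ) ≤ (b i : ℝ) := by exact_mod_cast hM i hi
  unfold rs
  split_ifs
  · push_cast
    rw [abs_of_pos (by positivity)]
    refine lt_of_le_of_lt ?_ hN
    apply one_div_le_one_div_of_le
    · positivity
    · linarith
  · simpa using hδ

lemma psum_ra (ε : ℕ → Bool) (m : ℕ) :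
    ∑ i ∈ Finset.range m, (ra b ε i : ℝ) = (rs b ε m : ℝ) - (rs b ε 0 : ℝ) := by
  induction m with
  | zero => simp
  | succ m ih =>
    rw [Finset.sum_range_succ, ih, ra]
    push_cast
    ring

lemma ra_converges (hb : Tendsto b atTop atTop) (ε : ℕ → Bool) :
    SeriesConverges fun i => (ra b ε i : ℝ) := by
  refine ⟨0 - (rs b ε 0 : ℝ), ?_⟩
  simp_rw [psum_ra]
  exact (rs_tendsto b hb ε).sub_const _

/-! ### Divergence of subseries -/

open Classical in
/-- The padded subseries. -/
noncomputable def pad (u : ℕ → ℝ) (X : Set ℕ) : ℕ → ℝ := fun i => if i ∈ X then u i else 0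

lemma psum_pad_out (u : ℕ → ℝ) (X : Set ℕ) (m m' : ℕ) (hmm : m ≤ m')
    (hout : ∀ i, m ≤ i → i < m' → i ∉ X) : psum (pad u X) m' = psum (pad u X) m := by
  induction m', hmm using Nat.le_induction with
  | base => rfl
  | succ k hk ih =>
    rw [psum_succ, ih fun i h1 h2 => hout i h1 (by omega)]
    have : pad u X k = 0 := if_neg (hout k hk (by omega))
    rw [this, add_zero]

lemma psum_pad_inn (ε : ℕ → Bool) (X : Set ℕ) (m m' : ℕ) (hmm : m ≤ m')
    (hinn : ∀ i, m ≤ i → i < m' → i ∈ X) :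
    psum (pad (fun i => (ra b ε i : ℝ)) X) m' =
      psum (pad (fun i => (ra b ε i : ℝ)) X) m + ((rs b ε m' : ℝ) - (rs b ε m : ℝ)) := by
  induction m', hmm using Nat.le_induction with
  | base => ring
  | succ k hk ih =>
    rw [psum_succ, ih fun i h1 h2 => hinn i h1 (by omega)]
    have : pad (fun i => (ra b ε i : ℝ)) X k = (ra b ε k : ℝ) :=
      if_pos (hinn k hk (by omega))
    rw [this, ra]
    push_cast
    ring

variable {X : Set ℕ} {x y : ℕ → ℕ} (hc : Comps X x y)

include hc in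
lemma psum_comp (ε : ℕ → Bool) (k : ℕ) :
    psum (pad (fun i => (ra b ε i : ℝ)) X) (y (k + 1)) =
      psum (pad (fun i => (ra b ε i : ℝ)) X) (y k) +
        ((rs b ε (y (k + 1)) : ℝ) - (rs b ε (x k) : ℝ)) := by
  rw [psum_pad_inn b ε X (x k) (y (k + 1)) (hc.xy k).le (hc.inn k),
    psum_pad_out _ X (y k) (x k) (hc.yx k).le (hc.out k)]

open Classical in
/-- The positions of the `r`-th run of `n + 1` consecutive components from `k₀` on. -/
noncomputable def runSet (x y : ℕ → ℕ) (n k₀ r : ℕ) : Finset ℕ :=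
  (Finset.range (n + 1)).image (fun j => x (k₀ + r * (n + 1) + j)) ∪
    (Finset.range (n + 1)).image (fun j => y (k₀ + r * (n + 1) + j + 1))

open Classical in
/-- The pattern: the bit is `1` exactly outside of `X`. -/
noncomputable def pat (X : Set ℕ) (i : ℕ) : Bool := decide (i ∉ X)

include hc in
lemma x_mem (k : ℕ) : x k ∈ X := hc.inn k (x k) le_rfl (hc.xy k)

include hc in
lemma y_notMem (k : ℕ) : y k ∉ X := hc.out k (y k) le_rfl (hc.yx k)

include hc in
lemma x_mono : StrictMono x := strictMono_nat_of_lt_succ fun k => (hc.xy k).trans (hc.yx (k + 1))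

include hc in
lemma runSet_card (n k₀ r : ℕ) : (runSet x y n k₀ r).card = 2 * (n + 1) := by
  classical
  unfold runSet
  rw [Finset.card_union_of_disjoint, Finset.card_image_of_injective,
    Finset.card_image_of_injective, Finset.card_range]
  · ring
  · intro a b hab
    have := hc.mono.injective hab
    omega
  · intro a b hab
    have := (x_mono hc).injective hab
    omega
  · rw [Finset.disjoint_left]
    intro i h1 h2
    obtain ⟨a, _, rfl⟩ := Finset.mem_image.1 h1
    obtain ⟨b, _, hb⟩ := Finset.mem_image.1 h2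
    exact y_notMem hc _ (hb ▸ x_mem hc _)

include hc in
lemma runSet_bounds (n k₀ r i : ℕ) (hi : i ∈ runSet x y n k₀ r) :
    y (k₀ + r * (n + 1)) < i ∧ i ≤ y (k₀ + (r + 1) * (n + 1)) := by
  have hy := hc.mono
  have e : k₀ + (r + 1) * (n + 1) = k₀ + r * (n + 1) + (n + 1) := by ring
  unfold runSet at hi
  rw [e]
  generalize k₀ + r * (n + 1) = k at *
  rcases Finset.mem_union.1 hi with h1 | h1
  · obtain ⟨j, hj, rfl⟩ := Finset.mem_image.1 h1
    rw [Finset.mem_range] at hj
    constructor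
    · exact (hy.monotone (by omega)).trans_lt (hc.yx _)
    · exact (hc.xy _).le.trans (hy.monotone (by omega))
  · obtain ⟨j, hj, rfl⟩ := Finset.mem_image.1 h1
    rw [Finset.mem_range] at hj
    exact ⟨hy (by omega), hy.monotone (by omega)⟩

include hc in
lemma runSet_disjoint (n k₀ r r' : ℕ) (hr : r < r') :
    Disjoint (runSet x y n k₀ r) (runSet x y n k₀ r') := by
  rw [Finset.disjoint_left]
  intro i h1 h2
  have b1 := (runSet_bounds hc n k₀ r i h1).2
  have b2 := (runSet_bounds hc n k₀ r' i h2).1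
  have : y (k₀ + (r + 1) * (n + 1)) ≤ y (k₀ + r' * (n + 1)) := by
    refine hc.mono.monotone ?_
    have : (r + 1) * (n + 1) ≤ r' * (n + 1) := Nat.mul_le_mul_right _ hr
    omega
  omega

/-- the number of components used in the `n`-th step -/
def wn (n : ℕ) : ℕ := n * 4 ^ (n + 1) * (n + 1)

include hc in
lemma run_sum (ε : ℕ → Bool) (n k₀ r K : ℕ) (hrK : r < K)
    (hb : ∀ i, y k₀ ≤ i → i ≤ y (k₀ + K * (n + 1)) → b i = n)
    (hm : ε ∈ matchSet (runSet x y n k₀ r) (pat X)) :
    psum (pad (fun i => (ra b ε i : ℝ)) X) (y (k₀ + r * (n + 1) + (n + 1))) =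
      psum (pad (fun i => (ra b ε i : ℝ)) X) (y (k₀ + r * (n + 1))) + 1 := by
  have hK : r * (n + 1) + (n + 1) ≤ K * (n + 1) := by
    have : (r + 1) * (n + 1) ≤ K * (n + 1) := Nat.mul_le_mul_right _ hrK
    linarith
  have hstep : ∀ j ≤ n + 1,
      psum (pad (fun i => (ra b ε i : ℝ)) X) (y (k₀ + r * (n + 1) + j)) =
        psum (pad (fun i => (ra b ε i : ℝ)) X) (y (k₀ + r * (n + 1))) +
          j * (1 / ((n : ℝ) + 1)) := by
    intro j
    induction j with
    | zero => intro _; simp
    | succ j ih =>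
      intro hj
      have hx : rs b ε (x (k₀ + r * (n + 1) + j)) = 0 := by
        have hmem : x (k₀ + r * (n + 1) + j) ∈ runSet x y n k₀ r :=
          Finset.mem_union_left _ (Finset.mem_image.2 ⟨j, Finset.mem_range.2 (by omega), rfl⟩)
        have hε := hm _ hmem
        unfold rs
        rw [if_neg]
        rw [hε, pat]
        simp [x_mem hc]
      have hy : rs b ε (y (k₀ + r * (n + 1) + j + 1)) = 1 / ((n : ℚ) + 1) := by
        have hmem : y (k₀ + r * (n + 1) + j + 1) ∈ runSet x y n k₀ r :=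
          Finset.mem_union_right _ (Finset.mem_image.2 ⟨j, Finset.mem_range.2 (by omega), rfl⟩)
        have hε := hm _ hmem
        have hb' : b (y (k₀ + r * (n + 1) + j + 1)) = n := by
          apply hb
          · exact hc.mono.monotone (by omega)
          · exact hc.mono.monotone (by omega)
        unfold rs
        rw [if_pos, hb']
        rw [hε, pat]
        simp [y_notMem hc]
      rw [show k₀ + r * (n + 1) + (j + 1) = k₀ + r * (n + 1) + j + 1 by ring,
        psum_comp b hc, ih (by omega), hx, hy]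
      push_cast
      ring
  rw [hstep (n + 1) le_rfl]
  push_cast
  field_simp

include hc in
lemma null_converge (hb : ∀ i, b i ≤ i) (hmany : ∀ N, ∃ n ≥ N, ∃ k,
    ∀ i, y k ≤ i → i ≤ y (k + wn n) → b i = n) :
    coin {ε | SeriesConverges (pad (fun i => (ra b ε i : ℝ)) X)} = 0 := by
  let E : ℕ → Set (ℕ → Bool) := fun N => {ε | ∀ n ≥ N, ∀ k₀,
    (∀ i, y k₀ ≤ i → i ≤ y (k₀ + wn n) → b i = n) →
      ε ∈ failSet (runSet x y n k₀) (pat X) (n * 4 ^ (n + 1))}
  have hsub : {ε | SeriesConverges (pad (fun i => (ra b ε i : ℝ)) X)} ⊆ ⋃ N, E N := by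
    rintro ε ⟨L, hL⟩
    rw [Metric.tendsto_atTop] at hL
    obtain ⟨N, hN⟩ := hL (1 / 2) (by norm_num)
    refine Set.mem_iUnion.2 ⟨N, fun n hn k₀ h1 r hr hmatch => ?_⟩
    have hs := run_sum b hc ε n k₀ r _ hr h1 hmatch
    have hb1 : N ≤ y (k₀ + r * (n + 1)) := by
      calc N ≤ n := hn
        _ = b (y k₀) := (h1 _ le_rfl (hc.mono.monotone (by omega))).symm
        _ ≤ y k₀ := hb _
        _ ≤ _ := hc.mono.monotone (by omega)
    have hb2 : N ≤ y (k₀ + r * (n + 1) + (n + 1)) :=
      hb1.trans (hc.mono.monotone (by omega))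
    have d1 := hN _ hb1
    have d2 := hN _ hb2
    change dist (psum (pad (fun i => (ra b ε i : ℝ)) X) _) L < 1 / 2 at d1
    change dist (psum (pad (fun i => (ra b ε i : ℝ)) X) _) L < 1 / 2 at d2
    rw [hs] at d2
    rw [Real.dist_eq, abs_lt] at d1 d2
    linarith [d1.1, d2.2]
  refine measure_mono_null hsub (measure_iUnion_null fun N => ?_)
  refine null_of_frequently _ fun M => ?_
  obtain ⟨n, hn, k, hk1⟩ := hmany (max N M)
  refine ⟨n, (le_max_right _ _).trans hn, ?_⟩
  have hE : E N ⊆ failSet (runSet x y n k) (pat X) (n * 4 ^ (n + 1)) := fun ε hε =>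
    hε n ((le_max_left _ _).trans hn) k hk1
  refine (measure_mono hE).trans ?_
  rw [coin_failSet _ _ (2 * (n + 1)) (fun r => runSet_card hc n k r)
    (fun r r' hrr => runSet_disjoint hc n k r r' hrr)]
  exact fail_bound n

end series

lemma pad_converges_of_abs (u : ℕ → ℝ) (X : Set ℕ) (h : SeriesConverges fun i => |u i|) :
    SeriesConverges (pad u X) := by
  obtain ⟨L, hL⟩ := h
  have h1 : Summable fun i => |u i| :=
    ((hasSum_iff_tendsto_nat_of_nonneg (fun i => abs_nonneg (u i)) L).2 hL).summable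
  have h2 : Summable (pad u X) := by
    refine h1.of_norm_bounded fun i => ?_
    rw [Real.norm_eq_abs]
    unfold pad
    split_ifs
    · exact le_rfl
    · simp
  exact ⟨_, h2.hasSum.tendsto_sum_nat⟩

lemma converges_subterms_iff (a : ℕ → ℚ) (X : Set ℕ) (hX : X.Infinite) :
    SeriesConverges (subterms a X) ↔ SeriesConverges (pad (fun i => (a i : ℝ)) X) :=
  Pool.Agent.Lib.MP_d37bef_lc.converges_sub_iff (fun i => (a i : ℝ)) X hX

/-! ### A bound for the gaps of a random set -/

lemma exists_bound {Ω : Type*} [MeasurableSpace Ω] (μ : Measure Ω) [IsFiniteMeasure μ]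
    (X : Ω → Set ℕ) (hX : ∀ n, MeasurableSet {z | n ∈ X z}) :
    ∃ γ : ℕ → ℕ, ∀ᵐ z ∂μ, (X z).Infinite → (X z)ᶜ.Infinite → ∀ᶠ k in atTop, gy (X z) k < γ k := by
  classical
  have hg : ∀ j, MeasurableSet {z | j ∈ gaps (X z)} := by
    intro j
    have e : {z | j ∈ gaps (X z)} = {z | 0 < j} ∩ ({z | j - 1 ∈ X z} ∩ {z | j ∈ X z}ᶜ) := by
      ext z
      rfl
    rw [e]
    exact (MeasurableSet.const _).inter ((hX _).inter (hX _).compl)
  let S : ℕ → ℕ → Set Ω := fun k j => {z | Nat.count (fun i => i ∈ gaps (X z)) j ≤ k}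
  have hcm : ∀ j, Measurable fun z => Nat.count (fun i => i ∈ gaps (X z)) j := by
    intro j
    induction j with
    | zero => simp only [Nat.count_zero]; exact measurable_const
    | succ j ih =>
      simp only [Nat.count_succ]
      exact ih.add (Measurable.ite (hg j) measurable_const measurable_const)
  have hS : ∀ k j, MeasurableSet (S k j) := fun k j => measurableSet_le (hcm j) measurable_const
  let S' : ℕ → Set Ω := fun k => ⋂ j, S k j
  have hex : ∀ k, ∃ j, μ (S k j \ S' k) ≤ 2⁻¹ ^ k := by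
    intro k
    have h1 : Antitone fun j => S k j \ S' k := by
      intro j j' hj z hz
      exact ⟨(Nat.count_monotone _ hj).trans hz.1, hz.2⟩
    have h2 : Tendsto (fun j => μ (S k j \ S' k)) atTop (𝓝 (μ (⋂ j, S k j \ S' k))) :=
      tendsto_measure_iInter_atTop
        (fun j => ((hS k j).diff (MeasurableSet.iInter (hS k))).nullMeasurableSet) h1
        ⟨0, measure_ne_top _ _⟩
    have h3 : (⋂ j, S k j \ S' k) = ∅ := by
      ext z
      simp only [Set.mem_iInter, Set.mem_sdiff, Set.mem_empty_iff_false, iff_false]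
      intro h
      exact (h 0).2 (Set.mem_iInter.2 fun j => (h j).1)
    rw [h3, measure_empty] at h2
    have h4 : (0 : ENNReal) < 2⁻¹ ^ k := ENNReal.pow_pos (by simp) k
    obtain ⟨j, hj⟩ := (h2.eventually (gt_mem_nhds h4)).exists
    exact ⟨j, hj.le⟩
  choose γ hγ using hex
  refine ⟨γ, ?_⟩
  have hsum : ∑' k, μ (S k (γ k) \ S' k) ≠ ⊤ := by
    refine ne_top_of_le_ne_top ?_ (ENNReal.tsum_le_tsum hγ)
    rw [ENNReal.tsum_geometric]
    simp
  filter_upwards [ae_eventually_notMem hsum] with z hz h1 h2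
  refine hz.mono fun k hk => ?_
  have hg : (Set.ofPred fun j => j ∈ gaps (X z)).Infinite := gaps_infinite h1 h2
  have h5 : z ∉ S' k := by
    intro h
    have h6 : Nat.count (fun i => i ∈ gaps (X z)) (gy (X z) (k + 1)) ≤ k :=
      Set.mem_iInter.1 h (gy (X z) (k + 1))
    rw [gy, Nat.count_nth_of_infinite hg] at h6
    omega
  have h7 : z ∉ S k (γ k) := fun h => hk ⟨h, h5⟩
  have h8 : k < Nat.count (fun i => i ∈ gaps (X z)) (γ k) := not_le.1 h7
  exact Nat.nth_lt_of_lt_count h8

/-! ### The generic block function -/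

/-- the number of ones of `u` below `i` -/
def cnt (u : ℕ → Bool) (i : ℕ) : ℕ := Nat.count (fun j => u j = true) i

lemma cnt_le (u : ℕ → Bool) (i : ℕ) : cnt u i ≤ i := by
  unfold cnt
  rw [Nat.count_eq_card_filter_range]
  exact (Finset.card_filter_le _ _).trans (by simp)

lemma cnt_mono (u : ℕ → Bool) : Monotone (cnt u) := Nat.count_monotone _

lemma cnt_congr {u u' : ℕ → Bool} {i : ℕ} (h : ∀ j < i, u j = u' j) : cnt u i = cnt u' i := by
  unfold cnt
  rw [Nat.count_eq_card_filter_range, Nat.count_eq_card_filter_range]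
  congr 1
  refine Finset.filter_congr fun j hj => ?_
  rw [h j (Finset.mem_range.1 hj)]

lemma cnt_add (u : ℕ → Bool) (k m : ℕ) (h : ∀ j, k ≤ j → j < k + m → u j = false) :
    cnt u (k + m) = cnt u k := by
  induction m with
  | zero => rfl
  | succ m ih =>
    have h1 := ih fun j hj1 hj2 => h j hj1 (by omega)
    unfold cnt at *
    rw [← Nat.add_assoc, Nat.count_succ, h1, h (k + m) (by omega) (by omega)]
    simp

/-- `u` is generic for `γ` -/
def GenFor (γ : ℕ → ℕ) (u : ℕ → Bool) : Prop := ∀ N, ∃ n ≥ N, ∃ k ≥ N,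
  ∀ i, k ≤ i → i ≤ γ (k + wn n) → cnt u i = n

lemma genFor_residual (γ : ℕ → ℕ) :
    ∀ᶠ u in residual (ℕ → Bool), GenFor γ u := by
  unfold GenFor
  rw [eventually_countable_forall]
  intro N
  refine residual_of_dense_open ?_ ?_
  · rw [isOpen_iff_mem_nhds]
    rintro u ⟨n, hn, k, hk, h⟩
    have h1 : {u' : ℕ → Bool | ∀ j ∈ Finset.range (k + γ (k + wn n) + 1), u' j = u j} ∈ nhds u := by
      rw [show {u' : ℕ → Bool | ∀ j ∈ Finset.range (k + γ (k + wn n) + 1), u' j = u j} =
        Set.pi (Finset.range (k + γ (k + wn n) + 1)) fun j => {u j} by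
          ext u'
          simp [Set.mem_pi]]
      refine set_pi_mem_nhds (Finset.finite_toSet _) fun j _ => ?_
      exact (isOpen_discrete _).mem_nhds rfl
    refine Filter.mem_of_superset h1 fun u' hu' => ⟨n, hn, k, hk, fun i hi1 hi2 => ?_⟩
    rw [← h i hi1 hi2]
    refine cnt_congr fun j hj => hu' j (Finset.mem_range.2 ?_)
    omega
  · rw [dense_iff_inter_open]
    rintro U hU ⟨u, hu⟩
    rw [isOpen_pi_iff] at hU
    obtain ⟨s, V, hV, hsub⟩ := hU u hu
    obtain ⟨L, hL⟩ : ∃ L, ∀ j ∈ s, j < L := ⟨s.sup id + 1, fun j hj =>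
      Nat.lt_succ_of_le (Finset.le_sup (f := id) hj)⟩
    let u' : ℕ → Bool := fun j => if j < L then u j else decide (j < L + N)
    have h1 : cnt u' (L + N) ≥ N := by
      have h2 : ∀ m ≤ N, m ≤ cnt u' (L + m) := by
        intro m
        induction m with
        | zero => intro _; exact Nat.zero_le _
        | succ m ih =>
          intro hm
          have h3 := ih (by omega)
          unfold cnt at *
          rw [← Nat.add_assoc, Nat.count_succ]
          have h4 : u' (L + m) = true := by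
            simp only [u']
            rw [if_neg (by omega)]
            simpa using by omega
          rw [if_pos h4]
          omega
      exact h2 N le_rfl
    refine ⟨u', hsub ?_, cnt u' (L + N), h1, L + N, by omega, ?_⟩
    · intro j hj
      have h2 : u' j = u j := if_pos (hL j hj)
      rw [h2]
      exact (hV j hj).2
    · intro i hi1 _
      obtain ⟨m, rfl⟩ := Nat.exists_eq_add_of_le hi1
      refine cnt_add u' (L + N) m fun j hj1 hj2 => ?_
      simp only [u']
      rw [if_neg (by omega)]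
      simpa using by omega

lemma tendsto_cnt {γ : ℕ → ℕ} (hγ : ∀ k, k ≤ γ k) {u : ℕ → Bool} (h : GenFor γ u) :
    Tendsto (cnt u) atTop atTop := by
  refine tendsto_atTop_atTop.2 fun N => ?_
  obtain ⟨n, hn, k, _, hk⟩ := h N
  refine ⟨k, fun i hi => ?_⟩
  have h1 := hk k le_rfl ((Nat.le_add_right k (wn n)).trans (hγ _))
  exact hn.trans (h1.symm.le.trans (cnt_mono u hi))

/-- The subseries along `X` of the random series given by a generic block function diverges. -/
theorem null_of_genFor {γ : ℕ → ℕ} {u : ℕ → Bool} (h : GenFor γ u)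
    {X : Set ℕ} (h1 : X.Infinite) (h2 : Xᶜ.Infinite) (hX : ∀ᶠ k in atTop, gy X k < γ k) :
    coin {ε | SeriesConverges (pad (fun i => (ra (cnt u) ε i : ℝ)) X)} = 0 := by
  obtain ⟨x, hc⟩ := exists_comps X h1 h2
  refine null_converge (cnt u) hc (cnt_le u) fun N => ?_
  obtain ⟨K₀, hK₀⟩ := eventually_atTop.1 hX
  obtain ⟨n, hn, k, hk, hk2⟩ := h (max N K₀)
  refine ⟨n, (le_max_left _ _).trans hn, k, fun i hi1 hi2 => hk2 i ?_ ?_⟩
  · exact hc.mono.le_apply.trans hi1
  · refine hi2.trans (hK₀ _ ?_).le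
    have := le_max_right N K₀
    omega

end Pool.Agent.Lib.RM48
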