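import Mathlib
import Pool.Agent.Lib.RM48.SS.Cat
import Pool.Agent.Lib.RM48.SS.Series

/-!
# The algebra for adding Cohen reals and then random reals
-/

set_option autoImplicit false

open Set Filter Topology MeasureTheory Cardinal

namespace Pool.Agent.Lib.RM48

variable {K : Type}

/-- the measure for the random reals -/
noncomputable abbrev νK (K : Type) : Measure (K → ℕ → Bool) := Measure.infinitePi fun _ : K => coin

/-- The points: a sequence of Cohen reals and a sequence of random reals. -/
abbrev ΩK (K : Type) : Type := CX K × (K → ℕ → Bool)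

/-- The filter: almost all sections over comeagrely many points. -/
noncomputable def GK (K : Type) : Filter (ΩK K) := (residual (CX K)).curry (ae (νK K))

lemma mem_GK {E : Set (ΩK K)} :
    E ∈ GK K ↔ ∀ᶠ x in residual (CX K), ∀ᵐ y ∂(νK K), (x, y) ∈ E := Iff.rfl

instance : CountableInterFilter (GK K) := by
  unfold GK
  infer_instance

instance : (residual (CX K)).NeBot := residual_neBot _

instance : (GK K).NeBot := by
  refine ⟨fun h => ?_⟩
  have h1 : (∅ : Set (ΩK K)) ∈ GK K := by rw [h]; trivial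
  rw [mem_GK] at h1
  obtain ⟨x, hx⟩ := h1.exists
  obtain ⟨y, hy⟩ := hx.exists
  exact hy

/-- the section measures -/
noncomputable def sm (A : Set (ΩK K)) (x : CX K) : ENNReal := νK K {y | (x, y) ∈ A}

lemma measurable_sm {A : Set (ΩK K)} (hA : MeasurableSet A) : Measurable (sm A) :=
  measurable_measure_prodMk_left hA

lemma nl_iff {A : Set (ΩK K)} : Nl (GK K) A ↔ ∀ᶠ x in residual (CX K), sm A x = 0 := by
  unfold Nl
  rw [mem_GK]
  refine eventually_congr (Eventually.of_forall fun x => ?_)
  rw [ae_iff]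
  unfold sm
  simp only [mem_compl_iff, not_not]

/-- a cylinder -/
def cyl (s : Finset (K × ℕ)) (p : CX K) : Set (CX K) := {z | ∀ i ∈ s, z i = p i}

lemma isOpen_cyl (s : Finset (K × ℕ)) (p : CX K) : IsOpen (cyl s p) := by
  have e : cyl s p = Set.pi s fun i => {p i} := by
    ext z
    simp [cyl, Set.mem_pi]
  rw [e]
  exact isOpen_set_pi (Finset.finite_toSet _) fun i _ => isOpen_discrete _

/-- the fair coin measure on the Cohen space -/
noncomputable def cm (K : Type) : Measure (CX K) :=
  Measure.infinitePi fun _ => (PMF.uniformOfFintype Bool).toMeasure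

instance : IsProbabilityMeasure (cm K) := by
  unfold cm
  infer_instance

lemma meas_cyl (s : Finset (K × ℕ)) (p : CX K) : MeasurableSet (cyl s p) := by
  have e : cyl s p = Set.pi s fun i => {p i} := by
    ext z
    simp [cyl, Set.mem_pi]
  rw [e]
  exact MeasurableSet.pi s.countable_toSet fun i _ => measurableSet_singleton _

lemma cm_cyl (s : Finset (K × ℕ)) (p : CX K) : cm K (cyl s p) = 2⁻¹ ^ s.card := by
  have e : cyl s p = Set.pi s fun i => {p i} := by
    ext z
    simp [cyl, Set.mem_pi]
  have h0 : ∀ b : Bool, (PMF.uniformOfFintype Bool).toMeasure {b} = 2⁻¹ := by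
    intro b
    rw [PMF.toMeasure_apply_singleton _ _ (measurableSet_singleton b)]
    simp
  rw [e, cm, Measure.infinitePi_pi _ (fun i _ => measurableSet_singleton _)]
  simp [h0]

/-- many cylinders of the same measure have a common point -/
lemma exists_common {I : Type} (s : I → Finset (K × ℕ)) (p : I → CX K) (m q : ℕ)
    (J : Finset I) (hJ : ∀ i ∈ J, (s i).card = m) (hc : q * 2 ^ m < J.card) :
    ∃ z, ∃ J' ⊆ J, q < J'.card ∧ ∀ i ∈ J', z ∈ cyl (s i) (p i) := by
  classical
  by_contra hcon
  push Not at hcon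
  have h1 : ∀ z, ∑ i ∈ J, (cyl (s i) (p i)).indicator (fun _ => (1 : ENNReal)) z ≤ q := by
    intro z
    have h2 : ∑ i ∈ J, (cyl (s i) (p i)).indicator (fun _ => (1 : ENNReal)) z =
        ((J.filter fun i => z ∈ cyl (s i) (p i)).card : ENNReal) := by
      rw [Finset.card_filter]
      push_cast
      refine Finset.sum_congr rfl fun i _ => ?_
      rw [indicator_apply]
    rw [h2]
    have h3 : (J.filter fun i => z ∈ cyl (s i) (p i)).card ≤ q := by
      by_contra h4
      obtain ⟨i, hi, hi2⟩ := hcon z (J.filter fun i => z ∈ cyl (s i) (p i))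
        (Finset.filter_subset _ _) (not_le.1 h4)
      exact hi2 (Finset.mem_filter.1 hi).2
    exact_mod_cast h3
  have h5 : ∫⁻ z, ∑ i ∈ J, (cyl (s i) (p i)).indicator (fun _ => (1 : ENNReal)) z ∂(cm K) ≤ q := by
    refine (lintegral_mono h1).trans ?_
    rw [lintegral_const, measure_univ, mul_one]
  rw [lintegral_finsetSum _ fun i _ => measurable_const.indicator (meas_cyl _ _)] at h5
  have h6 : ∀ i ∈ J, ∫⁻ z, (cyl (s i) (p i)).indicator (fun _ => (1 : ENNReal)) z ∂(cm K) =
      2⁻¹ ^ m := by
    intro i hi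
    rw [lintegral_indicator (meas_cyl _ _), lintegral_const, one_mul, Measure.restrict_apply_univ,
      cm_cyl, hJ i hi]
  rw [Finset.sum_congr rfl h6, Finset.sum_const, nsmul_eq_mul] at h5
  have h7 : (J.card : ENNReal) ≤ q * 2 ^ m := by
    calc (J.card : ENNReal) = J.card * 2⁻¹ ^ m * 2 ^ m := by
          rw [mul_assoc, ← mul_pow, ENNReal.inv_mul_cancel (by simp) (by simp), one_pow, mul_one]
      _ ≤ q * 2 ^ m := by gcongr
  have h8 : J.card ≤ q * 2 ^ m := by exact_mod_cast h7
  omega

/-- The algebra satisfies the countable chain condition. -/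
theorem ccf_GK : CCF (ΩK K) (GK K) := by
  classical
  intro I A hA hpos hdisj
  -- choose the cylinders
  have h1 : ∀ i, ∃ (q : ℕ) (s : Finset (K × ℕ)) (p : CX K),
      ∀ᶠ x in residual (CX K), x ∈ cyl s p → ((q : ENNReal) + 1)⁻¹ < sm (A i) x := by
    intro i
    have h2 : ∃ q : ℕ, ¬ ∀ᶠ x in residual (CX K), ¬ ((q : ENNReal) + 1)⁻¹ < sm (A i) x := by
      by_contra hcon
      push Not at hcon
      apply hpos i
      rw [nl_iff]
      have h3 : ∀ᶠ x in residual (CX K), ∀ q : ℕ, sm (A i) x ≤ ((q : ENNReal) + 1)⁻¹ :=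
        eventually_countable_forall.2 hcon
      refine h3.mono fun x hx => ?_
      refine le_antisymm (le_of_forall_gt fun a ha => ?_) bot_le
      obtain ⟨n, hn⟩ := ENNReal.exists_inv_nat_lt ha.ne'
      refine (hx n).trans_lt (lt_of_le_of_lt ?_ hn)
      exact ENNReal.inv_le_inv.2 (self_le_add_right _ _)
    obtain ⟨q, hq⟩ := h2
    have hm : MeasurableSet {x | ((q : ENNReal) + 1)⁻¹ < sm (A i) x} :=
      measurableSet_lt measurable_const (measurable_sm (hA i))
    obtain ⟨U, hU, hEU⟩ := (baireMeas hm).residualEq_isOpen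
    rcases U.eq_empty_or_nonempty with rfl | ⟨p, hp⟩
    · exfalso
      apply hq
      refine hEU.mem_iff.mono fun x hx h3 => ?_
      exact hx.1 h3
    · obtain ⟨s, hs⟩ := exists_cyl hU hp
      refine ⟨q, s, p, hEU.mem_iff.mono fun x hx h3 => hx.2 (hs x h3)⟩
  choose q s p hqs using h1
  have h2 : ∀ᵉ (i : I) (j : I), i ≠ j → ∀ᶠ x in residual (CX K), sm (A i ∩ A j) x = 0 :=
    fun i j hij => nl_iff.1 (hdisj i j hij)
  -- pigeonhole
  have hfib : ∀ c : ℕ × ℕ, {i : I | (q i, (s i).card) = c}.Finite := by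
    rintro ⟨Q, m⟩
    by_contra hinf
    obtain ⟨J, hJ, hJc⟩ := Set.Infinite.exists_subset_card_eq hinf ((Q + 1) * 2 ^ m + 1)
    have hJ1 : ∀ i ∈ J, (s i).card = m := fun i hi => congrArg Prod.snd (hJ hi)
    have hJ2 : ∀ i ∈ J, q i = Q := fun i hi => congrArg Prod.fst (hJ hi)
    obtain ⟨z, J', hJ', hcard, hz⟩ := exists_common s p m (Q + 1) J hJ1 (by omega)
    have e1 : ∀ᶠ x in residual (CX K), ∀ i ∈ J',
        (x ∈ cyl (s i) (p i) → ((q i : ENNReal) + 1)⁻¹ < sm (A i) x) := by
      rw [Filter.eventually_all_finset]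
      exact fun i _ => hqs i
    have e2 : ∀ᶠ x in residual (CX K), ∀ i ∈ J', ∀ j ∈ J', i ≠ j → sm (A i ∩ A j) x = 0 := by
      rw [Filter.eventually_all_finset]
      intro i _
      rw [Filter.eventually_all_finset]
      intro j _
      by_cases hij : i = j
      · exact Eventually.of_forall fun x h => (h hij).elim
      · exact (h2 i j hij).mono fun x hx _ => hx
    have hopen : IsOpen (⋂ i ∈ J', cyl (s i) (p i)) :=
      isOpen_biInter_finset fun i _ => isOpen_cyl _ _
    obtain ⟨x, hx, hx1, hx2⟩ := (dense_of_mem_residual (e1.and e2)).inter_open_nonempty _ hopen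
      ⟨z, mem_iInter₂.2 hz⟩
    rw [mem_iInter₂] at hx
    have h3 : ∑ i ∈ J', sm (A i) x ≤ 1 := by
      have h4 : ∑ i ∈ J', sm (A i) x = νK K (⋃ i ∈ J', {y | (x, y) ∈ A i}) := by
        rw [measure_biUnion_finset₀]
        · rfl
        · intro i hi j hj hij
          have := hx2 i hi j hj hij
          exact this
        · intro i _
          exact (measurable_prodMk_left (hA i)).nullMeasurableSet
      rw [h4]
      exact prob_le_one
    have h5 : (J'.card : ENNReal) * ((Q : ENNReal) + 1)⁻¹ ≤ 1 := by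
      refine le_trans ?_ h3
      rw [← nsmul_eq_mul, ← Finset.sum_const]
      refine Finset.sum_le_sum fun i hi => ?_
      have := hx1 i hi (hx i hi)
      rw [hJ2 i (hJ' hi)] at this
      exact this.le
    have h6 : (J'.card : ENNReal) ≤ (Q : ENNReal) + 1 := by
      have h7 : ((Q : ENNReal) + 1) ≠ 0 := by simp
      have h8 : ((Q : ENNReal) + 1) ≠ ⊤ := by
        simp
      calc (J'.card : ENNReal) = J'.card * ((Q : ENNReal) + 1)⁻¹ * ((Q : ENNReal) + 1) := by
            rw [mul_assoc, ENNReal.inv_mul_cancel h7 h8, mul_one]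
        _ ≤ 1 * ((Q : ENNReal) + 1) := by gcongr
        _ = _ := one_mul _
    have h7 : J'.card ≤ Q + 1 := by exact_mod_cast h6
    omega
  have hcount : (univ : Set I).Countable := by
    have e : (univ : Set I) = ⋃ c : ℕ × ℕ, {i : I | (q i, (s i).card) = c} := by
      ext i
      simp
    rw [e]
    exact countable_iUnion fun c => (hfib c).countable
  exact countable_univ_iff.1 hcount

end Pool.Agent.Lib.RM48
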