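import Mathlib
import Pool.Agent.Lib.RM48.SS.Series
import Pool.Agent.Lib.RM48.Osc.Borel
import Pool.Agent.Lib.RM48.SS.Prod
import Pool.Agent.Lib.RM48.Names

section

/-!
# The predicates for reals are Borel
-/

set_option autoImplicit false

open Filter Topology

namespace Pool.Agent.Lib.RM48

open Pool.Agent.Lib.KZF

/-! ### Codes of functions -/

open Classical in
/-- the value at `i` of the function coded by `x` -/
noncomputable def gv (x : Set ℕ) (i : ℕ) : ℕ :=
  if h : ∃ v, Nat.pair i v ∈ x then Nat.find h else 0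

lemma mem_graph (u : ℕ → ℕ) (n : ℕ) : n ∈ graph u ↔ u (Nat.unpair n).1 = (Nat.unpair n).2 := by
  constructor
  · rintro ⟨i, rfl⟩
    simp
  · intro h
    refine ⟨(Nat.unpair n).1, ?_⟩
    rw [h, Nat.pair_unpair]

lemma gv_graph (u : ℕ → ℕ) : gv (graph u) = u := by
  classical
  funext i
  have h : ∃ v, Nat.pair i v ∈ graph u := ⟨u i, i, rfl⟩
  unfold gv
  rw [dif_pos h]
  have h1 := Nat.find_spec h
  rw [mem_graph] at h1
  simpa using h1.symm

/-- `x` codes a function -/
def IsGr (x : Set ℕ) : Prop := x = graph (gv x)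

lemma isGr_graph (u : ℕ → ℕ) : IsGr (graph u) := by
  unfold IsGr
  rw [gv_graph]

lemma gv_eq_iff (x : Set ℕ) (i v : ℕ) : gv x i = v ↔
    (Nat.pair i v ∈ x ∧ ∀ w < v, Nat.pair i w ∉ x) ∨ (v = 0 ∧ ∀ w, Nat.pair i w ∉ x) := by
  classical
  unfold gv
  split_ifs with h
  · rw [Nat.find_eq_iff]
    constructor
    · exact fun h1 => Or.inl h1
    · rintro (h1 | ⟨_, h1⟩)
      · exact h1
      · exact (h1 _ h.choose_spec).elim
  · push Not at h
    constructor
    · rintro rfl
      exact Or.inr ⟨rfl, h⟩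
    · rintro (h1 | h1)
      · exact (h v h1.1).elim
      · exact h1.1.symm

lemma isBor_gv (i v : ℕ) : IsBor (fun r => gv {n | r n} i = v) := by
  have h1 : IsBor (fun r : ℕ → Prop =>
      (r (Nat.pair i v) ∧ ∀ w : ℕ, w < v → ¬ r (Nat.pair i w)) ∨
        (v = 0 ∧ ∀ w : ℕ, ¬ r (Nat.pair i w))) :=
    ((IsBor.atom _).and (IsBor.all fun w => (IsBor.const _).imp (IsBor.atom _).not)).or
      ((IsBor.const _).and (IsBor.all fun w => (IsBor.atom _).not))
  exact h1.congr fun r => (gv_eq_iff _ _ _).symm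

/-- predicates which depend on finitely many values and bits -/
lemma isBor_fin2 (m : ℕ) (Q : (ℕ → ℕ) → Set ℕ → Prop)
    (h : ∀ (u u' : ℕ → ℕ) (X X' : Set ℕ), (∀ i < m, u i = u' i) → (∀ i < m, (i ∈ X ↔ i ∈ X')) →
      (Q u X ↔ Q u' X')) :
    IsBor (fun r => Q (gv {n | evn r n}) {n | odn r n}) := by
  have h1 : IsBor (fun r : ℕ → Prop => ∃ s : List ℕ, ∃ F : Finset ℕ,
      (∀ i : ℕ, i < m → gv {n | evn r n} i = s.getD i 0) ∧
      (∀ i : ℕ, i < m → (odn r i ↔ i ∈ F)) ∧ Q (fun i => s.getD i 0) {i | i ∈ F}) := by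
    refine IsBor.ex fun s => IsBor.ex fun F => (IsBor.all fun i => (IsBor.const _).imp ?_).and
      ((IsBor.all fun i => (IsBor.const _).imp ((isBor_odn (IsBor.atom i)).iff
        (IsBor.const _))).and (IsBor.const _))
    exact isBor_evn (isBor_gv i _)
  refine h1.congr fun r => ?_
  constructor
  · rintro ⟨s, F, h2, h3, h4⟩
    exact (h _ _ _ _ h2 h3).2 h4
  · intro hr
    classical
    refine ⟨(List.range m).map (gv {n | evn r n}), (Finset.range m).filter (odn r), ?_, ?_, ?_⟩
    · intro i hi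
      simp [List.getD, hi]
    · intro i hi
      simp [hi]
    · refine (h _ _ _ _ ?_ ?_).1 hr
      · intro i hi
        simp [List.getD, hi]
      · intro i hi
        simp [hi]

lemma isBor_gv2 (i v : ℕ) : IsBor (fun r => gv {n | odn r n} i = v) :=
  isBor_odn (isBor_gv i v)

lemma isBor_isGr : IsBor (fun r => IsGr {n | r n}) := by
  have h1 : IsBor (fun r : ℕ → Prop => ∀ n : ℕ,
      (r n ↔ gv {n | r n} (Nat.unpair n).1 = (Nat.unpair n).2)) :=
    IsBor.all fun n => (IsBor.atom n).iff (isBor_gv _ _)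
  refine h1.congr fun r => ?_
  unfold IsGr
  rw [Set.ext_iff]
  refine forall_congr' fun n => ?_
  rw [mem_graph]
  exact Iff.rfl

/-! ### Convergence -/

lemma seriesConverges_iff (u : ℕ → ℝ) : SeriesConverges u ↔
    ∀ k : ℕ, ∃ N : ℕ, ∀ n n' : ℕ, N ≤ n → N ≤ n' →
      |∑ i ∈ Finset.range n, u i - ∑ i ∈ Finset.range n', u i| ≤ 1 / ((k : ℝ) + 1) := by
  constructor
  · rintro ⟨L, hL⟩ k
    have hc := hL.cauchySeq
    rw [Metric.cauchySeq_iff] at hc
    obtain ⟨N, hN⟩ := hc (1 / ((k : ℝ) + 1)) (by positivity)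
    refine ⟨N, fun n n' hn hn' => ?_⟩
    have := hN n hn n' hn'
    rw [Real.dist_eq] at this
    exact this.le
  · intro h
    have hc : CauchySeq (fun n => ∑ i ∈ Finset.range n, u i) := by
      rw [Metric.cauchySeq_iff]
      intro ε hε
      obtain ⟨k, hk⟩ := exists_nat_one_div_lt hε
      obtain ⟨N, hN⟩ := h k
      refine ⟨N, fun n hn n' hn' => ?_⟩
      rw [Real.dist_eq]
      exact (hN n n' hn hn').trans_lt hk
    exact cauchySeq_tendsto_of_complete hc

/-- convergence is Borel -/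
lemma isBor_conv (T : ℕ → (ℕ → ℕ) → Set ℕ → ℝ)
    (h : ∀ (i : ℕ) (u u' : ℕ → ℕ) (X X' : Set ℕ), u i = u' i → (i ∈ X ↔ i ∈ X') →
      T i u X = T i u' X') :
    IsBor (fun r => SeriesConverges fun i => T i (gv {n | evn r n}) {n | odn r n}) := by
  have h1 : IsBor (fun r : ℕ → Prop => ∀ k : ℕ, ∃ N : ℕ, ∀ n n' : ℕ, N ≤ n → N ≤ n' →
      |∑ i ∈ Finset.range n, T i (gv {n | evn r n}) {n | odn r n} -
        ∑ i ∈ Finset.range n', T i (gv {n | evn r n}) {n | odn r n}| ≤ 1 / ((k : ℝ) + 1)) := by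
    refine IsBor.all fun k => IsBor.ex fun N => IsBor.all fun n => IsBor.all fun n' =>
      (IsBor.const _).imp ((IsBor.const _).imp ?_)
    refine isBor_fin2 (n + n') (fun u X =>
      |∑ i ∈ Finset.range n, T i u X - ∑ i ∈ Finset.range n', T i u X| ≤ 1 / ((k : ℝ) + 1)) ?_
    intro u u' X X' hu hX
    have e : ∀ m ≤ n + n', ∑ i ∈ Finset.range m, T i u X = ∑ i ∈ Finset.range m, T i u' X' := by
      intro m hm
      refine Finset.sum_congr rfl fun i hi => ?_
      have := Finset.mem_range.1 hi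
      exact h i u u' X X' (hu i (by omega)) (hX i (by omega))
    rw [e n (by omega), e n' (by omega)]
  exact h1.congr fun r => (seriesConverges_iff _).symm

/-! ### Dense open sets -/

/-- compatibility of finite sequences -/
lemma dense_dSet_iff (c : Set ℕ) (m : ℕ) : Dense (DSet c m) ↔
    ∀ t : List ℕ, ∃ s : List ℕ, Nat.pair m (Encodable.encode s) ∈ c ∧
      ∀ i : ℕ, i < s.length → i < t.length → s.getD i 0 = t.getD i 0 := by
  constructor
  · intro h t
    have ho : IsOpen {u : ℕ → ℕ | ∀ i ∈ Finset.range t.length, u i = t.getD i 0} := by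
      have e : {u : ℕ → ℕ | ∀ i ∈ Finset.range t.length, u i = t.getD i 0} =
          Set.pi (Finset.range t.length) fun i => {t.getD i 0} := by
        ext u
        simp [Set.mem_pi]
      rw [e]
      exact isOpen_set_pi (Finset.finite_toSet _) fun i _ => isOpen_discrete _
    obtain ⟨u, hu, s, hs, hsu⟩ := h.inter_open_nonempty _ ho ⟨fun i => t.getD i 0, fun i _ => rfl⟩
    refine ⟨s, hs, fun i h1 h2 => ?_⟩
    have h3 : u i = t.getD i 0 := hu i (Finset.mem_range.2 h2)
    have h4 := hsu i h1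
    have h5 : s.getD i 0 = s[i] := by simp [List.getD, h1]
    rw [h5, ← h4, h3]
  · intro h
    rw [dense_iff_inter_open]
    rintro U hU ⟨u, hu⟩
    rw [isOpen_pi_iff] at hU
    obtain ⟨F, V, hV, hsub⟩ := hU u hu
    obtain ⟨L, hL⟩ : ∃ L, ∀ j ∈ F, j < L := ⟨F.sup id + 1, fun j hj =>
      Nat.lt_succ_of_le (Finset.le_sup (f := id) hj)⟩
    obtain ⟨s, hs, hst⟩ := h ((List.range L).map u)
    let w : ℕ → ℕ := fun i => if i < L then u i else s.getD i 0
    refine ⟨w, hsub fun j hj => ?_, s, hs, fun i hi => ?_⟩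
    · have h1 : w j = u j := if_pos (hL j hj)
      rw [h1]
      exact (hV j hj).2
    · have h5 : s.getD i 0 = s[i] := by simp [List.getD, hi]
      by_cases h6 : i < L
      · have h7 := hst i hi (by simpa using h6)
        rw [h5] at h7
        rw [h7]
        simp [w, h6, List.getD]
      · simp only [w]
        rw [if_neg h6, h5]

lemma isBor_denseCode : IsBor (fun r => DenseCode {n | r n}) := by
  have h1 : IsBor (fun r : ℕ → Prop => ∀ m : ℕ, ∀ t : List ℕ, ∃ s : List ℕ,
      r (Nat.pair m (Encodable.encode s)) ∧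
        ∀ i : ℕ, i < s.length → i < t.length → s.getD i 0 = t.getD i 0) :=
    IsBor.all fun m => IsBor.all fun t => IsBor.ex fun s => (IsBor.atom _).and (IsBor.const _)
  refine h1.congr fun r => ?_
  unfold DenseCode
  exact forall_congr' fun m => (dense_dSet_iff _ m).symm

lemma mem_dSet_iff (c : Set ℕ) (m : ℕ) (u : ℕ → ℕ) : u ∈ DSet c m ↔
    ∃ s : List ℕ, Nat.pair m (Encodable.encode s) ∈ c ∧
      ∀ i : ℕ, i < s.length → u i = s.getD i 0 := by
  constructor
  · rintro ⟨s, hs, h⟩
    exact ⟨s, hs, fun i hi => by rw [h i hi]; simp [List.getD, hi]⟩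
  · rintro ⟨s, hs, h⟩
    exact ⟨s, hs, fun i hi => by rw [h i hi]; simp [List.getD, hi]⟩

lemma isBor_avoid : IsBor (fun r => ∃ m : ℕ, gv {n | odn r n} ∉ DSet {n | evn r n} m) := by
  have h1 : IsBor (fun r : ℕ → Prop => ∃ m : ℕ, ¬ ∃ s : List ℕ,
      evn r (Nat.pair m (Encodable.encode s)) ∧
        ∀ i : ℕ, i < s.length → gv {n | odn r n} i = s.getD i 0) :=
    IsBor.ex fun m => (IsBor.ex fun s => (isBor_evn (IsBor.atom _)).and (IsBor.all fun i =>
      (IsBor.const _).imp (isBor_gv2 i _))).not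
  refine h1.congr fun r => ?_
  exact exists_congr fun m =>
    not_congr (mem_dSet_iff {n | evn r n} m (gv {n | odn r n})).symm

/-! ### The Borel relations -/

/-- the Borel relations -/
def PS : ℕ → Set ℕ → Set ℕ → Prop
  | 0 => fun X _ => X.Infinite
  | 1 => fun S X => (X ∩ S).Infinite ∧ (X \ S).Infinite
  | 2 => fun c _ => DenseCode c
  | 3 => fun x _ => IsGr x
  | 4 => fun c x => ∃ m, gv x ∉ DSet c m
  | 5 => fun x _ => IsGr x ∧ CondConverges fun i => (rat (gv x i) : ℝ)
  | 6 => fun X _ => X.Infinite ∧ Xᶜ.Infinite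
  | 7 => fun x X => SeriesConverges (pad (fun i => (rat (gv x i) : ℝ)) X)
  | _ => fun _ _ => True

lemma isBor_infinite' {P : ℕ → (ℕ → Prop) → Prop} (h : ∀ n, IsBor (P n)) :
    IsBor (fun r => {n : ℕ | P n r}.Infinite) := isBor_infinite.comp h

lemma isBor_PS (k : ℕ) : IsBor (fun r => PS k {n | evn r n} {n | odn r n}) := by
  match k with
  | 0 => exact isBor_evn isBor_infinite
  | 1 =>
    refine IsBor.and ?_ ?_
    · exact isBor_infinite' (P := fun n r => odn r n ∧ evn r n) fun n =>
        (isBor_odn (IsBor.atom n)).and (isBor_evn (IsBor.atom n))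
    · exact isBor_infinite' (P := fun n r => odn r n ∧ ¬ evn r n) fun n =>
        (isBor_odn (IsBor.atom n)).and (isBor_evn (IsBor.atom n)).not
  | 2 => exact isBor_evn isBor_denseCode
  | 3 => exact isBor_evn isBor_isGr
  | 4 => exact isBor_avoid
  | 5 =>
    refine (isBor_evn isBor_isGr).and (IsBor.and ?_ (IsBor.not ?_))
    · exact isBor_conv (fun i u _ => (rat (u i) : ℝ)) fun i u u' X X' h _ => by
        simp only [h]
    · exact isBor_conv (fun i u _ => |(rat (u i) : ℝ)|) fun i u u' X X' h _ => by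
        simp only [h]
  | 6 =>
    refine IsBor.and (isBor_evn isBor_infinite) ?_
    exact isBor_infinite' (P := fun n r => ¬ evn r n) fun n => (isBor_evn (IsBor.atom n)).not
  | 7 =>
    classical
    refine (isBor_conv (fun i u X => if i ∈ X then (rat (u i) : ℝ) else 0)
      fun i u u' X X' h h' => by simp only [h, h']).congr fun r => ?_
    exact Iff.rfl
  | (_ + 8) => exact IsBor.const True

/-- the codes of the Borel relations -/
noncomputable def CS (k : ℕ) : BF := (isBor_PS k).choose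

lemma sem_CS (k : ℕ) (x y : ℕ → Prop) : (CS k).sem (jn x y) ↔ PS k {n | x n} {n | y n} := by
  have h : (CS k).sem (jn x y) ↔ PS k {n | evn (jn x y) n} {n | odn (jn x y) n} :=
    (isBor_PS k).choose_spec (jn x y)
  rw [evn_jn, odn_jn] at h
  exact h

end Pool.Agent.Lib.RM48
end

section

/-!
# Properties of the generic reals
-/

set_option autoImplicit false

open Set Filter Topology MeasureTheory Cardinal

namespace Pool.Agent.Lib.RM48

/-! ### Null sets of the coin measure -/

lemma tendsto_half : Tendsto (fun n : ℕ => ((2 : ENNReal)⁻¹) ^ n) atTop (𝓝 0) := by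
  apply ENNReal.tendsto_pow_atTop_nhds_zero_of_lt_one
  exact ENNReal.inv_lt_one.2 (by norm_num)

lemma null_of_le_half {S : Set (ℕ → Bool)} (h : ∀ N : ℕ, coin S ≤ 2⁻¹ ^ N) : coin S = 0 := by
  refine le_antisymm (le_of_forall_gt fun a ha => ?_) bot_le
  obtain ⟨n, hn⟩ := (tendsto_half.eventually (gt_mem_nhds ha)).exists
  exact (h n).trans_lt hn

lemma coin_finite {X : Set ℕ} (hX : X.Infinite) (b : Bool) :
    coin {ε | {n | n ∈ X ∧ ε n = b}.Finite} = 0 := by
  have hsub : {ε : ℕ → Bool | {n | n ∈ X ∧ ε n = b}.Finite} ⊆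
      ⋃ m : ℕ, {ε | ∀ n, n ∈ X → m ≤ n → ε n = !b} := by
    intro ε hε
    obtain ⟨m, hm⟩ := hε.bddAbove
    refine mem_iUnion.2 ⟨m + 1, fun n hn hmn => ?_⟩
    by_contra hcon
    have h1 : ε n = b := by
      cases h : ε n <;> cases b <;> simp_all
    have := hm ⟨hn, h1⟩
    omega
  refine measure_mono_null hsub (measure_iUnion_null fun m => null_of_le_half fun N => ?_)
  have hX' : (X ∩ Ici m).Infinite := by
    refine Set.infinite_of_not_bddAbove ?_
    rintro ⟨c, hc⟩
    obtain ⟨x, hx, hcx⟩ := hX.exists_gt (max c m)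
    have h1 := hc ⟨hx, ((le_max_right c m).trans_lt hcx).le⟩
    have h2 := (le_max_left c m).trans_lt hcx
    omega
  obtain ⟨T, hT, hTc⟩ := hX'.exists_subset_card_eq N
  have h1 : {ε : ℕ → Bool | ∀ n, n ∈ X → m ≤ n → ε n = !b} ⊆ matchSet T fun _ => !b :=
    fun ε hε n hn => hε n (hT hn).1 (hT hn).2
  refine (measure_mono h1).trans ?_
  rw [coin_matchSet, hTc]

lemma coin_split {X : Set ℕ} (hX : X.Infinite) :
    coin {ε | ¬ PS 1 {n | ε n = true} X} = 0 := by
  refine measure_mono_null ?_ (measure_union_null (coin_finite hX true) (coin_finite hX false))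
  intro ε hε
  have h1 : ¬ ((X ∩ {n | ε n = true}).Infinite ∧ (X \ {n | ε n = true}).Infinite) := hε
  rw [not_and_or, not_infinite, not_infinite] at h1
  rcases h1 with h1 | h1
  · exact Or.inl h1
  · refine Or.inr (h1.subset ?_)
    rintro n ⟨hn, hn2⟩
    refine ⟨hn, fun h => ?_⟩
    rw [mem_ofPred_eq, hn2] at h
    exact Bool.false_ne_true h

/-! ### The code of a meagre set -/

/-- the code of the sequence of dense open sets: `u` agrees with `ε` modulo two on the interval
`[n, 2 n)` for some `n ≥ m` -/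
def cc (ε : ℕ → Bool) : Set ℕ :=
  {p | ∃ s : List ℕ, (Nat.unpair p).2 = Encodable.encode s ∧ ∃ n : ℕ, (Nat.unpair p).1 ≤ n ∧
    2 * n ≤ s.length ∧ ∀ i : ℕ, n ≤ i → i < 2 * n → (ε i = true ↔ s.getD i 0 % 2 = 1)}

lemma denseCode_cc (ε : ℕ → Bool) : DenseCode (cc ε) := by
  intro m
  rw [dense_dSet_iff]
  intro t
  let n := max m t.length
  let g : ℕ → ℕ := fun i => if i < t.length then t.getD i 0 else if ε i = true then 1 else 0
  have hg : ∀ i < 2 * n, ((List.range (2 * n)).map g).getD i 0 = g i := by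
    intro i hi
    simp [List.getD, hi]
  refine ⟨(List.range (2 * n)).map g, ⟨(List.range (2 * n)).map g, by simp, n, ?_, by simp, ?_⟩, ?_⟩
  · simp [n]
  · intro i hi1 hi2
    rw [hg i hi2]
    have h1 : ¬ i < t.length := by
      have := le_max_right m t.length
      omega
    simp only [g]
    rw [if_neg h1]
    split_ifs with h <;> simp [h]
  · intro i hi1 hi2
    rw [List.length_map, List.length_range] at hi1
    rw [hg i hi1]
    exact if_pos hi2

lemma meas_bit (i : ℕ) : Measurable fun ε : ℕ → Bool => ε i = true := by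
  have h : Measurable fun ε : ℕ → Bool => ε i := measurable_pi_apply i
  exact measurableSet_setOfPred.1 (h (measurableSet_singleton true))

lemma meas_cc (p : ℕ) : MeasurableSet {ε : ℕ → Bool | p ∈ cc ε} := by
  refine measurableSet_setOfPred.2 ?_
  exact Measurable.exists fun s => measurable_const.and (Measurable.exists fun n =>
    measurable_const.and (measurable_const.and (Measurable.forall fun i =>
      measurable_const.imp (measurable_const.imp ((meas_bit i).iff measurable_const)))))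

lemma coin_match (u : ℕ → ℕ) : coin {ε | ∀ m, u ∈ DSet (cc ε) m} = 0 := by
  let w : ℕ → Bool := fun i => decide (u i % 2 = 1)
  have hsum : ∑' n : ℕ, coin (matchSet (Finset.Ico n (2 * n)) w) ≠ ⊤ := by
    have h1 : ∀ n : ℕ, coin (matchSet (Finset.Ico n (2 * n)) w) = 2⁻¹ ^ n := by
      intro n
      rw [coin_matchSet, Nat.card_Ico]
      congr 1
      omega
    simp_rw [h1]
    rw [ENNReal.tsum_geometric]
    simp
  have h2 := ae_eventually_notMem hsum
  rw [ae_iff] at h2
  refine measure_mono_null ?_ h2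
  intro ε hε hcon
  obtain ⟨N, hN⟩ := eventually_atTop.1 hcon
  obtain ⟨s, ⟨s', hs', n, hn1, hn2, hn3⟩, hsu⟩ := (mem_dSet_iff _ _ _).1 (hε N)
  rw [Nat.unpair_pair] at hs' hn1
  have hss : s = s' := Encodable.encode_injective hs'
  subst hss
  refine hN n hn1 fun i hi => ?_
  obtain ⟨h3, h4⟩ := Finset.mem_Ico.1 hi
  have h5 := hn3 i h3 h4
  rw [← hsu i (by omega)] at h5
  by_cases h6 : u i % 2 = 1
  · simp [w, h6, h5.2 h6]
  · have h7 : ε i = false := by
      cases h : ε i
      · rfl
      · exact (h6 (h5.1 h)).elim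
    simp [w, h6, h7]

/-! ### The code of the series -/

lemma exists_rat (q : ℚ) : ∃ m, rat m = q := by
  refine ⟨Nat.pair (Nat.pair q.num.toNat (-q.num).toNat) (q.den - 1), ?_⟩
  unfold rat
  simp only [Nat.unpair_pair]
  have h1 : ((q.den - 1 : ℕ) : ℚ) + 1 = q.den := by
    have := q.den_pos
    have h2 : q.den - 1 + 1 = q.den := by omega
    exact_mod_cast h2
  have h3 : ((q.num.toNat : ℕ) : ℚ) - (((-q.num).toNat : ℕ) : ℚ) = q.num := by
    have h4 : ((q.num.toNat : ℕ) : ℤ) - (((-q.num).toNat : ℕ) : ℤ) = q.num := by omega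
    exact_mod_cast h4
  rw [h1, h3]
  exact Rat.num_div_den q

/-- the code of a rational number -/
noncomputable def enc (q : ℚ) : ℕ := (exists_rat q).choose

@[simp] lemma rat_enc (q : ℚ) : rat (enc q) = q := (exists_rat q).choose_spec

/-- the code of the random series -/
noncomputable def sc (u ε : ℕ → Bool) : Set ℕ := graph fun i => enc (ra (cnt u) ε i)

lemma gv_sc (u ε : ℕ → Bool) (i : ℕ) : rat (gv (sc u ε) i) = ra (cnt u) ε i := by
  rw [sc, gv_graph, rat_enc]

lemma isGr_sc (u ε : ℕ → Bool) : IsGr (sc u ε) := isGr_graph _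

lemma meas_sc {Z : Type*} [MeasurableSpace Z] (f g : Z → ℕ → Bool)
    (hf : ∀ n, Measurable fun z => f z n) (hg : ∀ n, Measurable fun z => g z n) (n : ℕ) :
    MeasurableSet {z | n ∈ sc (f z) (g z)} := by
  have h1 : ∀ i, Measurable fun z => cnt (f z) i := by
    intro i
    unfold cnt
    induction i with
    | zero => simp only [Nat.count_zero]; exact measurable_const
    | succ i ih =>
      simp only [Nat.count_succ]
      exact ih.add (Measurable.ite (hf i (measurableSet_singleton true)) measurable_const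
        measurable_const)
  have h2 : ∀ i, Measurable fun z => rs (cnt (f z)) (g z) i := by
    intro i
    unfold rs
    refine Measurable.ite (hg i (measurableSet_singleton true)) ?_ measurable_const
    exact (measurable_from_top (f := fun n : ℕ => 1 / ((n : ℚ) + 1))).comp (h1 i)
  have h3 : ∀ i, Measurable fun z => ra (cnt (f z)) (g z) i := fun i => (h2 (i + 1)).sub (h2 i)
  have h4 : {z | n ∈ sc (f z) (g z)} =
      (fun z => ra (cnt (f z)) (g z) (Nat.unpair n).1) ⁻¹' {q | enc q = (Nat.unpair n).2} := by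
    ext z
    simp only [sc, mem_ofPred_eq, mem_preimage, mem_graph]
  rw [h4]
  exact h3 _ (MeasurableSet.of_discrete)

/-! ### Supports -/

section

variable {K : Type}

/-- `C` supports the sequence `A`. -/
structure Supp (A : ℕ → Set (ΩK K)) (C : Set K) : Prop where
  ran : ∀ n x y y', (∀ k ∈ C, y k = y' k) → ((x, y) ∈ A n ↔ (x, y') ∈ A n)
  coh : ∀ n x x' y, (∀ k ∈ C, ∀ m, x (k, m) = x' (k, m)) → ((x, y) ∈ A n ↔ (x', y) ∈ A n)

lemma exists_supp (A : ℕ → Set (ΩK K)) (hA : ∀ n, MeasurableSet (A n)) :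
    ∃ C : Set K, C.Countable ∧ Supp A C := by
  have h1 : ∀ n, ∃ C : Set (K × ℕ), C.Countable ∧ ∀ z z' : K × ℕ → Bool,
      (∀ i ∈ C, z i = z' i) → ∀ y, (z, y) ∈ A n ↔ (z', y) ∈ A n := fun n =>
    exists_countable_support (A n) (hA n)
  have h2 : ∀ n, ∃ C : Set K, C.Countable ∧ ∀ z z' : K → ℕ → Bool,
      (∀ i ∈ C, z i = z' i) → ∀ y, (z, y) ∈ Prod.swap ⁻¹' A n ↔ (z', y) ∈ Prod.swap ⁻¹' A n :=
    fun n => exists_countable_support (Prod.swap ⁻¹' A n) (measurable_swap (hA n))
  choose C1 hC1 h1 using h1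
  choose C2 hC2 h2 using h2
  refine ⟨⋃ n, (Prod.fst '' C1 n ∪ C2 n), countable_iUnion fun n =>
    ((hC1 n).image _).union (hC2 n), ⟨?_, ?_⟩⟩
  · intro n x y y' hyy
    exact h2 n y y' (fun i hi => hyy i (mem_iUnion.2 ⟨n, Or.inr hi⟩)) x
  · intro n x x' y hxx
    exact h1 n x x' (fun i hi => hxx i.1 (mem_iUnion.2 ⟨n, Or.inl ⟨i, hi, rfl⟩⟩) i.2) y

variable [DecidableEq K] {A : ℕ → Set (ΩK K)} (hA : ∀ n, MeasurableSet (A n)) {C : Set K}
  (hC : Supp A C) {k : K} (hk : k ∉ C)

include hC hk in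
lemma fresh_r (x : CX K) (Q : Set ℕ → (ℕ → Bool) → Prop)
    (hQ : MeasurableSet {p : (K → ℕ → Bool) × (ℕ → Bool) | Q {n | (x, p.1) ∈ A n} p.2})
    (hnull : ∀ᵐ y ∂(νK K), coin {ε | Q {n | (x, y) ∈ A n} ε} = 0) :
    ∀ᵐ y ∂(νK K), ¬ Q {n | (x, y) ∈ A n} (y k) := by
  refine fresh_avoids {p : (K → ℕ → Bool) × (ℕ → Bool) | Q {n | (x, p.1) ∈ A n} p.2} hQ hnull C ?_
    k hk
  intro z z' hz y
  have e : {n | (x, z) ∈ A n} = {n | (x, z') ∈ A n} := by
    ext n
    exact hC.ran n x z z' hz
  simp only [mem_ofPred_eq]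
  rw [e]

omit [DecidableEq K] in
include hA in
lemma meas_A1 (x : CX K) (n : ℕ) :
    MeasurableSet {p : (K → ℕ → Bool) × (ℕ → Bool) | (x, p.1) ∈ A n} := by
  have h : Measurable fun p : (K → ℕ → Bool) × (ℕ → Bool) => (x, p.1) :=
    measurable_const.prodMk measurable_fst
  exact h (hA n)

include hA hC hk in
/-- fresh random reals split -/
lemma fresh_split : {z : ΩK K | {n | z ∈ A n}.Infinite → PS 1 {n | z.2 k n = true}
    {n | z ∈ A n}} ∈ GK K := by
  rw [mem_GK]
  refine Eventually.of_forall fun x => ?_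
  have h1 := fresh_r hC hk x (fun X ε => X.Infinite ∧ ¬ PS 1 {n | ε n = true} X) ?_ ?_
  · refine h1.mono fun y hy h2 => ?_
    by_contra hcon
    exact hy ⟨h2, hcon⟩
  · have m1 : ∀ n, MeasurableSet {p : (K → ℕ → Bool) × (ℕ → Bool) | p.2 n = true} := fun n =>
      measurable_snd (measurableSet_setOfPred.2 (meas_bit n))
    have e1 := meas_jn (CS 0) (PS 0) (sem_CS 0)
      (fun n => {p : (K → ℕ → Bool) × (ℕ → Bool) | (x, p.1) ∈ A n})
      (fun n => {p : (K → ℕ → Bool) × (ℕ → Bool) | (x, p.1) ∈ A n}) (meas_A1 hA x) (meas_A1 hA x)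
    have e2 := meas_jn (CS 1) (PS 1) (sem_CS 1)
      (fun n => {p : (K → ℕ → Bool) × (ℕ → Bool) | p.2 n = true})
      (fun n => {p : (K → ℕ → Bool) × (ℕ → Bool) | (x, p.1) ∈ A n}) m1 (meas_A1 hA x)
    exact e1.inter e2.compl
  · refine Eventually.of_forall fun y => ?_
    by_cases h : {n | (x, y) ∈ A n}.Infinite
    · refine measure_mono_null ?_ (coin_split h)
      exact fun ε hε => hε.2
    · have e : {ε : ℕ → Bool | {n | (x, y) ∈ A n}.Infinite ∧
          ¬ PS 1 {n | ε n = true} {n | (x, y) ∈ A n}} = ∅ := by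
        ext ε
        simp only [mem_ofPred_eq, mem_empty_iff_false, iff_false]
        exact fun h2 => h h2.1
      rw [e, measure_empty]

include hA hC hk in
/-- fresh random reals give meagre sets -/
lemma fresh_meagre : {z : ΩK K | PS 4 (cc (z.2 k)) {n | z ∈ A n}} ∈ GK K := by
  rw [mem_GK]
  refine Eventually.of_forall fun x => ?_
  have h1 := fresh_r hC hk x (fun X ε => ¬ PS 4 (cc ε) X) ?_ ?_
  · refine h1.mono fun y hy => not_not.1 hy
  · have m1 : ∀ n, MeasurableSet {p : (K → ℕ → Bool) × (ℕ → Bool) | n ∈ cc p.2} := fun n =>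
      measurable_snd (meas_cc n)
    have e2 := meas_jn (CS 4) (PS 4) (sem_CS 4)
      (fun n => {p : (K → ℕ → Bool) × (ℕ → Bool) | n ∈ cc p.2})
      (fun n => {p : (K → ℕ → Bool) × (ℕ → Bool) | (x, p.1) ∈ A n}) m1 (meas_A1 hA x)
    exact e2.compl
  · refine Eventually.of_forall fun y => ?_
    refine measure_mono_null ?_ (coin_match (gv {n | (x, y) ∈ A n}))
    intro ε hε m
    by_contra hcon
    exact hε ⟨m, hcon⟩

/-- the subseries property -/
lemma null_ps7 {γ : ℕ → ℕ} {u : ℕ → Bool} (h : GenFor γ u) {X : Set ℕ} (h1 : X.Infinite)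
    (h2 : Xᶜ.Infinite) (hX : ∀ᶠ k in atTop, gy X k < γ k) : coin {ε | PS 7 (sc u ε) X} = 0 := by
  have h3 := null_of_genFor h h1 h2 hX
  refine measure_mono_null ?_ h3
  intro ε hε
  have h4 : SeriesConverges (pad (fun i => (rat (gv (sc u ε) i) : ℝ)) X) := hε
  simp only [gv_sc] at h4
  exact h4

include hA hC hk in
/-- the series given by fresh Cohen and random reals has no conditionally convergent subseries
along the given set -/
lemma fresh_series {l : K} (hl : l ∉ C) : {z : ΩK K | PS 6 {n | z ∈ A n} {n | z ∈ A n} →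
    ¬ PS 7 (sc (fun n => z.1 (l, n)) (z.2 k)) {n | z ∈ A n}} ∈ GK K := by
  set E : Set (ΩK K) := {z : ΩK K | PS 6 {n | z ∈ A n} {n | z ∈ A n} →
    ¬ PS 7 (sc (fun n => z.1 (l, n)) (z.2 k)) {n | z ∈ A n}} with hE
  have hEm : MeasurableSet E := by
    have m1 : ∀ n, MeasurableSet {z : ΩK K | n ∈ sc (fun n => z.1 (l, n)) (z.2 k)} := by
      refine meas_sc _ _ (fun n => ?_) fun n => ?_
      · exact (measurable_pi_apply (l, n)).comp measurable_fst
      · exact (measurable_pi_apply n).comp ((measurable_pi_apply k).comp measurable_snd)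
    have e1 := meas_jn (CS 6) (PS 6) (sem_CS 6) A A hA hA
    have e2 := meas_jn (CS 7) (PS 7) (sem_CS 7)
      (fun n => {z : ΩK K | n ∈ sc (fun n => z.1 (l, n)) (z.2 k)}) A m1 hA
    exact MeasurableSet.imp e1 e2.compl
  rw [mem_GK]
  have hG : MeasurableSet {x : CX K | sm Eᶜ x = 0} :=
    measurable_sm hEm.compl (measurableSet_singleton 0)
  have hG2 : {x : CX K | sm Eᶜ x = 0} ∈ residual (CX K) := by
    refine residual_of_upd l hG fun x => ?_
    obtain ⟨γ, hγ⟩ := exists_bound (νK K) (fun y => {n | (x, y) ∈ A n}) fun n =>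
      measurable_prodMk_left (hA n)
    refine (genFor_residual γ).mono fun u hu => ?_
    have h1 := fresh_r hC hk x (fun X ε => PS 6 X X ∧ PS 7 (sc u ε) X) ?_ ?_
    · rw [mem_ofPred_eq, sm]
      rw [ae_iff] at h1
      refine measure_mono_null ?_ h1
      intro y hy
      have e1 : {n | (upd l (x, u), y) ∈ A n} = {n | (x, y) ∈ A n} := by
        ext n
        refine hC.coh n _ _ y fun i hi m => ?_
        unfold upd
        rw [if_neg]
        rintro rfl
        exact hl hi
      have e2 : (fun n => upd l (x, u) (l, n)) = u := by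
        funext n
        exact upd_apply l x u n
      have h2 : ¬ (PS 6 {n | (upd l (x, u), y) ∈ A n} {n | (upd l (x, u), y) ∈ A n} →
          ¬ PS 7 (sc (fun n => upd l (x, u) (l, n)) (y k)) {n | (upd l (x, u), y) ∈ A n}) := hy
      rw [e1, e2] at h2
      intro h3
      apply h2
      exact fun h4 h5 => h3 ⟨h4, h5⟩
    · have m1 : ∀ n, MeasurableSet {p : (K → ℕ → Bool) × (ℕ → Bool) | n ∈ sc u p.2} := by
        refine meas_sc _ _ (fun n => measurable_const) fun n => ?_
        exact (measurable_pi_apply n).comp measurable_snd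
      have e1 := meas_jn (CS 6) (PS 6) (sem_CS 6)
        (fun n => {p : (K → ℕ → Bool) × (ℕ → Bool) | (x, p.1) ∈ A n})
        (fun n => {p : (K → ℕ → Bool) × (ℕ → Bool) | (x, p.1) ∈ A n})
        (meas_A1 hA x) (meas_A1 hA x)
      have e2 := meas_jn (CS 7) (PS 7) (sem_CS 7)
        (fun n => {p : (K → ℕ → Bool) × (ℕ → Bool) | n ∈ sc u p.2})
        (fun n => {p : (K → ℕ → Bool) × (ℕ → Bool) | (x, p.1) ∈ A n}) m1 (meas_A1 hA x)
      exact e1.inter e2
    · filter_upwards [hγ] with y hy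
      by_cases h : PS 6 {n | (x, y) ∈ A n} {n | (x, y) ∈ A n}
      · refine measure_mono_null ?_ (null_ps7 hu h.1 h.2 (hy h.1 h.2))
        exact fun ε hε => hε.2
      · have e : {ε : ℕ → Bool | PS 6 {n | (x, y) ∈ A n} {n | (x, y) ∈ A n} ∧
            PS 7 (sc u ε) {n | (x, y) ∈ A n}} = ∅ := by
          ext ε
          simp only [mem_ofPred_eq, mem_empty_iff_false, iff_false]
          exact fun h2 => h h2.1
        rw [e, measure_empty]
  refine Filter.mem_of_superset hG2 fun x hx => ?_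
  rw [mem_ofPred_eq, ae_iff]
  exact hx

/-- the projection to a Cohen real -/
lemma residual_coh (l : K) {P : (ℕ → Bool) → Prop} (h : ∀ᶠ u in residual (ℕ → Bool), P u) :
    ∀ᶠ x in residual (CX K), P fun n => x (l, n) := by
  have hc : Continuous fun (x : CX K) n => x (l, n) := continuous_pi fun n => continuous_apply _
  have ho : IsOpenMap fun (x : CX K) n => x (l, n) := by
    refine IsOpenMap.of_sections fun x => ⟨fun u => upd l (x, u), ?_, upd_self l x, ?_⟩
    · exact ((continuous_upd l).comp (Continuous.prodMk_right x)).continuousAt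
    · intro u
      funext n
      exact upd_apply l x u n
  exact (tendsto_residual_of_isOpenMap hc ho).eventually h

/-- the series given by a Cohen real and a random real is conditionally convergent -/
lemma cond_series (l k : K) : {z : ΩK K | PS 5 (sc (fun n => z.1 (l, n)) (z.2 k))
    (sc (fun n => z.1 (l, n)) (z.2 k))} ∈ GK K := by
  classical
  let A₀ : ℕ → Set (ΩK K) := fun n => if n % 2 = 0 then univ else ∅
  have hA₀ : ∀ n, MeasurableSet (A₀ n) := by
    intro n
    simp only [A₀]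
    split_ifs
    · exact MeasurableSet.univ
    · exact MeasurableSet.empty
  have hC₀ : Supp A₀ ∅ := by
    constructor
    · intro n x y y' _
      simp only [A₀]
      split_ifs <;> simp
    · intro n x x' y _
      simp only [A₀]
      split_ifs <;> simp
  have h1 := fresh_series hA₀ hC₀ (k := k) (notMem_empty k) (l := l) (notMem_empty l)
  have hev : ∀ z : ΩK K, {n | z ∈ A₀ n} = {n | n % 2 = 0} := by
    intro z
    ext n
    by_cases h : n % 2 = 0 <;> simp [A₀, h]
  have hinf : ({n : ℕ | n % 2 = 0} : Set ℕ).Infinite ∧ ({n : ℕ | n % 2 = 0} : Set ℕ)ᶜ.Infinite := by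
    constructor
    · refine Set.infinite_of_not_bddAbove ?_
      rintro ⟨c, hc⟩
      have := hc (show 2 * (c + 1) ∈ {n : ℕ | n % 2 = 0} by simp)
      omega
    · refine Set.infinite_of_not_bddAbove ?_
      rintro ⟨c, hc⟩
      have := hc (show 2 * (c + 1) + 1 ∈ ({n : ℕ | n % 2 = 0} : Set ℕ)ᶜ by
        simp only [mem_compl_iff, mem_ofPred_eq]; omega)
      omega
  have h2 : ∀ᶠ x in residual (CX K), GenFor (fun k => k) fun n => x (l, n) :=
    residual_coh l (genFor_residual _)
  have h3 : {z : ΩK K | GenFor (fun k => k) fun n => z.1 (l, n)} ∈ GK K := by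
    rw [mem_GK]
    exact h2.mono fun x hx => Eventually.of_forall fun y => hx
  filter_upwards [h1, h3] with z hz1 hz3
  refine ⟨isGr_sc _ _, ?_, ?_⟩
  · simp only [gv_sc]
    exact ra_converges _ (tendsto_cnt (fun k => le_rfl) hz3) _
  · intro hcon
    rw [hev] at hz1
    exact hz1 hinf (pad_converges_of_abs _ _ hcon)

end

end Pool.Agent.Lib.RM48
end
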