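import Mathlib
import Pool.Agent.Lib.RM48.SS.Points

/-!
# `max {𝔰, cov(ℳ)} < 𝔰𝔰_cc` in the model obtained by adding Cohen reals and then random reals
-/

set_option autoImplicit false

open Set MeasureTheory Cardinal

namespace Pool.Agent.Lib.RM48

open Pool.Agent.Lib.SymZF Pool.Agent.Lib.SymZF.SymSys Name Pool.Agent.Lib.KZF

/-! ### The formula -/

/-- `v f` is a function on `v A` whose values satisfy `P` -/
def fFn (f A : ℕ) (P : FmlX) : FmlX :=
  FmlX.all ((FmlX.mem 0 (A + 1)).imp (FmlX.ex ((xRel (f + 2) 1 0).and (P.and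
    (FmlX.all ((xRel (f + 3) 2 0).imp (FmlX.eq 0 1)))))))

/-- `v 0` is a meagre set -/
def fMea : FmlX :=
  FmlX.ex ((FmlX.real 0).and ((FmlX.bor 2 0 0).and (FmlX.all ((FmlX.real 0).imp
    ((FmlX.mem 0 2).imp ((FmlX.bor 3 0 0).imp (FmlX.bor 4 1 0)))))))

/-- `𝔰 ≤ |v 0|` -/
def fSplit : FmlX :=
  FmlX.ex ((fFn 0 1 (FmlX.real 0)).and (FmlX.all ((FmlX.real 0).imp ((FmlX.bor 0 0 0).imp
    (FmlX.ex (FmlX.ex ((FmlX.mem 1 4).and ((xRel 3 1 0).and (FmlX.bor 1 0 2)))))))))

/-- `cov(ℳ) ≤ |v 0|` -/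
def fCov : FmlX :=
  FmlX.ex ((fFn 0 1 fMea).and (FmlX.all ((FmlX.real 0).imp ((FmlX.bor 3 0 0).imp
    (FmlX.ex (FmlX.ex ((FmlX.mem 1 4).and ((xRel 3 1 0).and (FmlX.mem 2 0)))))))))

/-- `v 0` is an infinite coinfinite set of natural numbers, and it is the only `N` with
`(v (a + 1), N) ∈ v (f + 1)` -/
def fBodyS (f a : ℕ) : FmlX :=
  (FmlX.real 0).and ((FmlX.bor 6 0 0).and (FmlX.all ((xRel (f + 2) (a + 2) 0).imp (FmlX.eq 0 1))))

/-- `|v 0| < 𝔰𝔰_cc` -/
def fLt : FmlX :=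
  FmlX.all (FmlX.ex ((FmlX.real 0).and ((FmlX.bor 5 0 0).and (FmlX.all ((FmlX.mem 0 3).imp
    ((FmlX.ex (fBodyS 2 0)).imp (FmlX.all ((xRel 3 1 0).imp (FmlX.neg (FmlX.bor 7 2 0))))))))))

/-- the sentence -/
def fSS : FmlX := FmlX.ex (fSplit.and (fCov.and fLt))

lemma satX_borS {M : Type} (E : M → M → Prop) (k i j : ℕ) (v : ℕ → M) :
    SatX E CS (.bor k i j) v ↔ PS k (rl E (v i)) (rl E (v j)) := by
  rw [satX_bor, sem_CS]
  rfl

section sat

variable {M : Type} (E : M → M → Prop) (v : ℕ → M)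

lemma satX_fFn (f A : ℕ) (P : FmlX) : SatX E CS (fFn f A P) v ↔
    ∀ a, E a (v A) → ∃ N, Rel E (v f) a N ∧ SatX E CS P (scons N (scons a v)) ∧
      ∀ N', Rel E (v f) a N' → N' = N := by
  simp only [fFn, satX_ex, satX_and, satX_all, satX_imp, satX_mem, satX_eq, satX_xRel, scons_zero,
    scons_succ]

lemma satX_fMea : SatX E CS fMea v → IsMeagre' E (v 0) := by
  simp only [fMea, satX_ex, satX_and, satX_all, satX_imp, satX_mem, satX_real, satX_borS,
    scons_zero, scons_one, scons_two]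
  rintro ⟨c, hc, hc2, h⟩
  refine ⟨c, hc, hc2, fun x u hx hxN => ?_⟩
  have h1 : IsGr (rl E x) := by
    rw [hx.2]
    exact isGr_graph u
  have h2 : ∃ m, gv (rl E x) ∉ DSet (rl E c) m := h x hx.1 hxN h1
  rw [hx.2, gv_graph] at h2
  exact h2

lemma fnOn_of {f A : M} {P : M → Prop} (h : ∀ a, E a A → ∃ N, Rel E f a N ∧ P N ∧
    ∀ N', Rel E f a N' → N' = N) : FnOn E f A P := by
  constructor
  · intro a ha
    obtain ⟨N, h1, _, h3⟩ := h a ha
    exact ⟨N, h1, h3⟩
  · intro a N ha hN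
    obtain ⟨N', h1, h2, h3⟩ := h a ha
    rw [h3 N hN]
    exact h2

theorem ss_of_sat (h : SatX E CS fSS v) : MaxLtSScc E := by
  simp only [fSS, satX_ex, satX_and] at h
  obtain ⟨A, h1, h2, h3⟩ := h
  refine ⟨A, ?_, ?_, ?_⟩
  · simp only [fSplit, satX_ex, satX_and, satX_all, satX_imp, satX_mem, satX_real, satX_borS,
      satX_xRel, satX_fFn, scons_zero, scons_one, scons_two, scons_three, scons_four] at h1
    obtain ⟨f, h4, h5⟩ := h1
    refine ⟨f, fnOn_of E h4, fun X hX hX2 => ?_⟩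
    obtain ⟨a, S, ha, hS, hs⟩ := h5 X hX hX2
    exact ⟨a, S, ha, hS, hs⟩
  · simp only [fCov, satX_ex, satX_and, satX_all, satX_imp, satX_mem, satX_real, satX_borS,
      satX_xRel, satX_fFn, scons_zero, scons_one, scons_two, scons_three, scons_four] at h2
    obtain ⟨f, h4, h5⟩ := h2
    refine ⟨f, fnOn_of E fun a ha => ?_, fun x u hx => ?_⟩
    · obtain ⟨N, h6, h7, h8⟩ := h4 a ha
      exact ⟨N, h6, satX_fMea E _ h7, h8⟩
    · have h6 : IsGr (rl E x) := by
        rw [hx.2]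
        exact isGr_graph u
      obtain ⟨a, N, ha, hN, hs⟩ := h5 x hx.1 h6
      exact ⟨a, N, ha, hN, hs⟩
  · simp only [fLt, fBodyS, satX_ex, satX_and, satX_all, satX_imp, satX_mem, satX_real, satX_borS,
      satX_neg, satX_eq, satX_xRel, scons_zero, scons_one, scons_two, scons_three, scons_four,
      Nat.reduceAdd, Nat.zero_add] at h3
    intro f hf
    obtain ⟨x, hx, hx2, h4⟩ := h3 f
    have hx3 : IsGr (rl E x) ∧ CondConverges fun i => (rat (gv (rl E x) i) : ℝ) := hx2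
    refine ⟨x, gv (rl E x), ⟨hx, hx3.1⟩, hx3.2, fun a X ha hX hcon => ?_⟩
    have hP := hf.2 a X ha hX
    have h5 : ¬ PS 7 (rl E x) (rl E X) := by
      refine h4 a ha ⟨X, hP.1, hP.2, fun N hN => ?_⟩ X hX
      exact (hf.1 a ha).unique hN hX
    exact h5 ((converges_subterms_iff _ _ hP.2.1).1 hcon.1)

end sat

/-! ### General Boolean-valued lemmas -/

section

variable {B : Type} [CompleteBooleanAlgebra B]

/-- Injectivity of ordered pairs. -/
lemma opair_eq_le (a b a' b' : (tS B).HSet) :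
    ((a.opair b).eq (a'.opair b') : B) ≤ a.eq a' ⊓ b.eq b' := by
  have hl : ∀ x y : (tS B).HSet, x.mem (x.pair y) = ⊤ := fun x y => by
    rw [HSet.mem_pair, HSet.eq_refl, top_sup_eq]
  have hr : ∀ x y : (tS B).HSet, y.mem (x.pair y) = ⊤ := fun x y => by
    rw [HSet.mem_pair, HSet.eq_refl, sup_top_eq]
  have key : ∀ p w x y : (tS B).HSet, w.mem p = ⊤ → p.eq (x.pair y) ≤ w.eq x ⊔ w.eq y := by
    intro p w x y h
    have h1 := HSet.mem_congr_right w p (x.pair y)
    rwa [h, inf_top_eq, HSet.mem_pair] at h1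
  set P : B := (a.opair b).eq (a'.opair b') with hP
  have hP' : P = (a'.opair b').eq (a.opair b) := by rw [hP, HSet.eq_symm]
  have hA : P ≤ (a.pair a).eq (a'.pair a') ⊔ (a.pair a).eq (a'.pair b') :=
    key _ _ _ _ (hl _ _)
  have hB1 : P ≤ (a.pair b).eq (a'.pair a') ⊔ (a.pair b).eq (a'.pair b') :=
    key _ _ _ _ (hr _ _)
  have hB2 : P ≤ (a'.pair b').eq (a.pair a) ⊔ (a'.pair b').eq (a.pair b) := by
    rw [hP']
    exact key _ _ _ _ (hr _ _)
  have e1 : P ≤ a.eq a' := by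
    refine hA.trans (sup_le ?_ ?_)
    · have := key (a.pair a) a a' a' (hl _ _)
      rwa [sup_idem] at this
    · have := key (a'.pair b') a' a a (hl _ _)
      rw [sup_idem] at this
      rw [HSet.eq_symm (a.pair a), HSet.eq_symm a a']
      exact this
  have e2 : P ≤ b.eq a' ⊔ b.eq b' := by
    refine hB1.trans (sup_le ?_ ?_)
    · have := key (a.pair b) b a' a' (hr _ _)
      rw [sup_idem] at this
      exact this.trans le_sup_left
    · exact key (a.pair b) b a' b' (hr _ _)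
  have e3 : P ≤ b'.eq a ⊔ b'.eq b := by
    refine hB2.trans (sup_le ?_ ?_)
    · have := key (a'.pair b') b' a a (hr _ _)
      rw [sup_idem] at this
      exact this.trans le_sup_left
    · exact key (a'.pair b') b' a b (hr _ _)
  refine le_inf e1 ?_
  calc P ≤ a.eq a' ⊓ ((b.eq a' ⊔ b.eq b') ⊓ (b'.eq a ⊔ b'.eq b)) :=
        le_inf e1 (le_inf e2 e3)
    _ ≤ b.eq b' := by
        rw [inf_sup_left, inf_sup_left]
        refine sup_le ?_ ?_
        · rw [inf_sup_right, inf_sup_left]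
          refine sup_le ?_ ?_
          · calc a.eq a' ⊓ (b.eq a' ⊓ b'.eq a) ≤ (b.eq a' ⊓ a'.eq a) ⊓ a.eq b' := by
                  refine le_inf (le_inf (inf_le_right.trans inf_le_left) ?_) ?_
                  · rw [HSet.eq_symm a' a]; exact inf_le_left
                  · rw [HSet.eq_symm a b']; exact inf_le_right.trans inf_le_right
              _ ≤ b.eq a ⊓ a.eq b' := inf_le_inf_right _ (HSet.eq_trans _ _ _)
              _ ≤ b.eq b' := HSet.eq_trans _ _ _
          · exact inf_le_right.trans inf_le_left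
        · rw [HSet.eq_symm b' b]
          exact inf_le_right.trans inf_le_right

lemma rlv_le_eq (x : (tS B).HSet) : rlv x ≤ x.eq (rn (bit x)) := by
  refine HSet.le_eq (S := tS B) (fun z => ?_) (fun z => ?_)
  · have h1 : rlv x ⊓ z.mem x ≤ z.mem (HSet.om (tS B)) :=
      (inf_le_inf_right _ (iInf_le _ z)).trans himp_inf_le
    refine (le_inf h1 inf_le_right).trans ?_
    rw [HSet.mem_om, iSup_inf_eq, rn, mem_fm]
    refine iSup_mono fun n => le_inf ?_ inf_le_left
    exact HSet.mem_congr_left _ _ _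
  · refine inf_le_right.trans ?_
    rw [rn, mem_fm]
    refine iSup_le fun n => ?_
    rw [inf_comm, HSet.eq_symm]
    exact HSet.mem_congr_left _ _ _

end

/-! ### The names -/

section names

/-- the index set -/
abbrev KK : Type := Set (Set ℕ)

/-- the algebra -/
noncomputable abbrev BK : Type := RO (Pos (ΩK KK) (GK KK))

/-- the names -/
noncomputable abbrev HS : Type 1 := (tS BK).HSet

/-- the name of the real `r` of the ground model -/
noncomputable abbrev ckk (r : Set ℕ) : HS := ck (GK KK) r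

lemma bit_ckk (r : Set ℕ) (n : ℕ) [Decidable (n ∈ r)] :
    bit (ckk r) n = if n ∈ r then ⊤ else ⊥ := by
  have h : bit (ckk r) = _ := bit_rn _
  rw [h]
  split_ifs with h1
  · simp [h1, el_univ]
  · simp [h1, el_empty]

lemma ckk_eq_bot {r r' : Set ℕ} (h : r ≠ r') : ((ckk r).eq (ckk r') : BK) = ⊥ := by
  classical
  rw [← le_bot_iff]
  have h1 : ∃ n, ¬ (n ∈ r ↔ n ∈ r') := by
    by_contra hcon
    push Not at hcon
    exact h (Set.ext hcon)
  obtain ⟨n, hn⟩ := h1
  refine (eq_le_bit (ckk r) (ckk r') n).trans ?_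
  rw [bit_ckk, bit_ckk]
  by_cases h2 : n ∈ r <;> by_cases h3 : n ∈ r' <;> simp_all

/-- the name of the set of the reals of the ground model -/
noncomputable def AA : HS := fm (fun r : Set ℕ => ckk r) (fun _ => ⊤)

/-- the name of the function `r ↦ g r` -/
noncomputable def fnm (g : Set ℕ → HS) : HS := fm (fun r : Set ℕ => (ckk r).opair (g r)) (fun _ => ⊤)

lemma relv_fnm (g : Set ℕ → HS) (r : Set ℕ) : relv (fnm g) (ckk r) (g r) = ⊤ :=
  mem_fm_top (fun r : Set ℕ => (ckk r).opair (g r)) r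

lemma relv_fnm_le (g : Set ℕ → HS) (r : Set ℕ) (N : HS) :
    relv (fnm g) (ckk r) N ≤ N.eq (g r) := by
  rw [relv, fnm, mem_fm]
  refine iSup_le fun r' => inf_le_right.trans ((opair_eq_le _ _ _ _).trans ?_)
  by_cases h : r = r'
  · subst h
    exact inf_le_right
  · rw [ckk_eq_bot h, bot_inf_eq]
    exact bot_le

lemma mem_AA (r : Set ℕ) : (ckk r).mem AA = ⊤ := mem_fm_top (fun r : Set ℕ => ckk r) r

lemma bvalX_fFn (f A : ℕ) (P : FmlX) (v : ℕ → HS) (g : Set ℕ → HS)
    (hf : v f = fnm g) (hA : v A = AA)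
    (hP : ∀ (r : Set ℕ) (w : ℕ → HS), bvalX CS P (scons (g r) w) = ⊤) :
    bvalX CS (fFn f A P) v = ⊤ := by
  rw [fFn, bvalX_all, eq_top_iff]
  refine le_iInf fun a => ?_
  have h1 := le_of_fm (B := BK) (fun r : Set ℕ => ckk r)
    (fun a => bvalX CS (FmlX.ex ((xRel (f + 2) 1 0).and (P.and
      (FmlX.all ((xRel (f + 3) 2 0).imp (FmlX.eq 0 1)))))) (scons a v))
    (fun x y => bvalX_congr_scons CS _ x y _) (fun r => ?_) a
  · rw [bvalX_imp, le_himp_iff, top_inf_eq]
    simp only [bvalX_mem, scons_zero, scons_succ, hA]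
    exact h1
  · rw [bvalX_ex, eq_top_iff]
    refine le_iSup_of_le (g r) ?_
    simp only [bvalX_and, bvalX_all, bvalX_imp, bvalX_eq, bvalX_xRel, scons_zero,
      scons_succ, hf, hP, relv_fnm, top_inf_eq]
    refine le_iInf fun N => ?_
    rw [le_himp_iff, top_inf_eq]
    exact relv_fnm_le g r N

lemma exists_fresh_single {C : Set KK} (hC : C.Countable) : ∃ r : Set ℕ, ({r} : KK) ∉ C := by
  by_contra hcon
  push Not at hcon
  have h1 : (univ : Set (Set ℕ)).Countable := by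
    refine (hC.preimage (f := fun r : Set ℕ => ({r} : KK)) ?_).mono fun r _ => hcon r
    exact fun a b h => Set.singleton_injective h
  have h4 : #(Set ℕ) = 𝔠 := by simp
  have h3 : #(Set ℕ) ≤ ℵ₀ := Cardinal.mk_le_aleph0_iff.2 (countable_univ_iff.1 h1)
  rw [h4] at h3
  exact absurd h3 (not_le.2 Cardinal.aleph0_lt_continuum)

/-! ### The splitting family -/

/-- the random reals -/
noncomputable def xr (r : Set ℕ) : HS := rA (GK KK) (fun n => {z | z.2 {r} n = true})

lemma meas_xr (r : Set ℕ) (n : ℕ) : MeasurableSet {z : ΩK KK | z.2 {r} n = true} := by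
  have : Measurable fun z : ΩK KK => z.2 {r} n :=
    (measurable_pi_apply n).comp ((measurable_pi_apply _).comp measurable_snd)
  exact this (measurableSet_singleton true)

lemma bit_xr (r : Set ℕ) : bit (xr r) = fun n => el (GK KK) {z | z.2 {r} n = true} := bit_rn _

lemma bvalX_fSplit (v : ℕ → HS) : bvalX CS fSplit (scons AA v) = ⊤ := by
  classical
  rw [fSplit, bvalX_ex, eq_top_iff]
  refine le_iSup_of_le (fnm xr) ?_
  rw [bvalX_and]
  refine le_inf ?_ ?_
  · rw [bvalX_fFn 0 1 _ _ xr rfl rfl]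
    intro r w
    exact rlv_rn _
  · rw [bvalX_all]
    refine le_iInf fun X => ?_
    obtain ⟨A, hA, hX⟩ := exists_rv (ccf_GK (K := KK)) X
    obtain ⟨C, hC, hC2⟩ := exists_supp A hA
    obtain ⟨r, hr⟩ := exists_fresh_single hC
    simp only [bvalX_imp, bvalX_real, bvalX_ex, bvalX_and, bvalX_mem, bvalX_xRel, bvalX_bor,
      scons_zero, scons_one, scons_two, scons_three, scons_four]
    rw [le_himp_iff, top_inf_eq]
    refine le_trans le_top ?_
    rw [top_le_iff, himp_eq_top_iff]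
    refine le_iSup_of_le (ckk r) (le_iSup_of_le (xr r) ?_)
    rw [mem_AA, relv_fnm, top_inf_eq, top_inf_eq, bit_xr, hX]
    have e1 := bs_jn (F := GK KK) (CS 0) (PS 0) (sem_CS 0) A A hA hA
    have e2 := bs_jn (F := GK KK) (CS 1) (PS 1) (sem_CS 1) _ A (meas_xr r) hA
    rw [e1.2, e2.2, el_le_iff e1.1 e2.1]
    refine Filter.mem_of_superset (fresh_split hA hC2 hr) ?_
    rintro z hz ⟨h1, h2⟩
    exact h2 (hz h1)

/-! ### The family of meagre sets -/

/-- the codes of the meagre sets -/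
noncomputable def cr (r : Set ℕ) : HS := rA (GK KK) (fun n => {z | n ∈ cc (z.2 {r})})

lemma meas_cr (r : Set ℕ) (n : ℕ) : MeasurableSet {z : ΩK KK | n ∈ cc (z.2 {r})} := by
  have : Measurable fun z : ΩK KK => z.2 {r} := (measurable_pi_apply _).comp measurable_snd
  exact this (meas_cc n)

lemma bit_cr (r : Set ℕ) : bit (cr r) = fun n => el (GK KK) {z | n ∈ cc (z.2 {r})} := bit_rn _

/-- the meagre sets -/
noncomputable def Mr (r : Set ℕ) : HS :=
  fm (fun b : ℕ → BK => rn b) (fun b => (CS 4).bs (jn (bit (cr r)) b))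

lemma mem_Mr_le (r : Set ℕ) (x : HS) : x.mem (Mr r) ≤ (CS 4).bs (jn (bit (cr r)) (bit x)) := by
  rw [Mr, mem_fm]
  refine iSup_le fun b => ?_
  have h1 := bor_congr CS 4 (cr r) (rn b) (cr r) x
  rw [bit_rn, HSet.eq_refl, top_inf_eq] at h1
  rw [inf_comm, HSet.eq_symm]
  exact h1

lemma le_mem_Mr (r : Set ℕ) (x : HS) :
    rlv x ⊓ (CS 4).bs (jn (bit (cr r)) (bit x)) ≤ x.mem (Mr r) := by
  rw [Mr, mem_fm]
  refine le_trans ?_ (le_iSup _ (bit x))
  exact le_inf inf_le_right (inf_le_left.trans (rlv_le_eq x))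

lemma bvalX_fMea (r : Set ℕ) (w : ℕ → HS) : bvalX CS fMea (scons (Mr r) w) = ⊤ := by
  rw [fMea, bvalX_ex, eq_top_iff]
  refine le_iSup_of_le (cr r) ?_
  simp only [bvalX_imp, bvalX_real, bvalX_all, bvalX_and, bvalX_mem, bvalX_bor,
    scons_zero, scons_one, scons_two]
  refine le_inf ?_ (le_inf ?_ (le_iInf fun x => ?_))
  · exact (rlv_rn _).ge
  · have e1 := bs_jn (F := GK KK) (CS 2) (PS 2) (sem_CS 2) _ _ (meas_cr r) (meas_cr r)
    rw [bit_cr, e1.2, top_le_iff, el_eq_top e1.1]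
    exact Filter.univ_mem' fun z => denseCode_cc _
  · rw [le_himp_iff, top_inf_eq]
    refine le_trans le_top ?_
    rw [top_le_iff, himp_eq_top_iff]
    refine (mem_Mr_le r x).trans ?_
    rw [le_himp_iff]
    exact inf_le_left

lemma bvalX_fCov (v : ℕ → HS) : bvalX CS fCov (scons AA v) = ⊤ := by
  classical
  rw [fCov, bvalX_ex, eq_top_iff]
  refine le_iSup_of_le (fnm Mr) ?_
  rw [bvalX_and]
  refine le_inf ?_ ?_
  · rw [bvalX_fFn 0 1 _ _ Mr rfl rfl]
    exact fun r w => bvalX_fMea r w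
  · rw [bvalX_all]
    refine le_iInf fun x => ?_
    obtain ⟨A, hA, hX⟩ := exists_rv (ccf_GK (K := KK)) x
    obtain ⟨C, hC, hC2⟩ := exists_supp A hA
    obtain ⟨r, hr⟩ := exists_fresh_single hC
    simp only [bvalX_imp, bvalX_real, bvalX_ex, bvalX_and, bvalX_mem, bvalX_xRel, bvalX_bor,
      scons_zero, scons_one, scons_two, scons_three, scons_four]
    rw [le_himp_iff, top_inf_eq, le_himp_iff]
    refine inf_le_left.trans ?_
    refine le_iSup_of_le (ckk r) (le_iSup_of_le (Mr r) ?_)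
    rw [mem_AA, relv_fnm, top_inf_eq, top_inf_eq]
    refine le_trans (le_inf le_rfl ?_) (le_mem_Mr r x)
    have e2 := bs_jn (F := GK KK) (CS 4) (PS 4) (sem_CS 4) _ A (meas_cr r) hA
    rw [bit_cr, hX, e2.2]
    refine le_top.trans ?_
    rw [top_le_iff, el_eq_top e2.1]
    exact fresh_meagre hA hC2 hr

/-! ### The series -/

/-- the Boolean value of `fBodyS` -/
noncomputable def bodyS (X f a : HS) : BK :=
  rlv X ⊓ ((CS 6).bs (jn (bit X) (bit X)) ⊓ ⨅ N : HS, relv f a N ⇨ N.eq X)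

lemma bvalX_fBodyS (f a : ℕ) (X : HS) (v : ℕ → HS) :
    bvalX CS (fBodyS f a) (scons X v) = bodyS X (v f) (v a) := by
  simp only [fBodyS, bvalX_and, bvalX_all, bvalX_imp, bvalX_real, bvalX_bor, bvalX_eq,
    bvalX_xRel, scons_zero, scons_succ]
  rfl

/-- the name of the series -/
noncomputable def sr (k : KK) : HS :=
  rA (GK KK) (fun n => {z | n ∈ sc (fun m => z.1 (k, m)) (z.2 k)})

lemma meas_sr (k : KK) (n : ℕ) :
    MeasurableSet {z : ΩK KK | n ∈ sc (fun m => z.1 (k, m)) (z.2 k)} := by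
  refine meas_sc _ _ (fun n => ?_) (fun n => ?_) n
  · exact (measurable_pi_apply (k, n)).comp measurable_fst
  · exact (measurable_pi_apply n).comp ((measurable_pi_apply k).comp measurable_snd)

lemma bit_sr (k : KK) :
    bit (sr k) = fun n => el (GK KK) {z | n ∈ sc (fun m => z.1 (k, m)) (z.2 k)} := bit_rn _

theorem exists_fresh_series (f : HS) : ∃ k : KK, ∀ (r : Set ℕ) (N : HS),
    (⨆ X : HS, bodyS X f (ckk r)) ⊓
      (relv f (ckk r) N ⊓ (CS 7).bs (jn (bit (sr k)) (bit N))) = ⊥ := by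
  classical
  have h1 : ∀ r : Set ℕ, ∃ X : HS, bodyS X f (ckk r) = ⨆ X : HS, bodyS X f (ckk r) := by
    intro r
    have h := exists_max (B := BK)
      (fun X => bvalX CS (fBodyS 0 1) (scons X (scons f (fun _ => ckk r))))
      (fun x y => bvalX_congr_scons CS (fBodyS 0 1) x y _)
    simp only [bvalX_fBodyS, scons_zero, scons_one] at h
    exact h
  choose X hX using h1
  choose A hA hXA using fun r => exists_rv (ccf_GK (K := KK)) (X r)
  choose S hS hS2 using fun r => exists_supp (A r) (hA r)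
  have hK : 𝔠 < #KK := by
    have h1 : #(Set ℕ) < #(Set (Set ℕ)) := by
      rw [Cardinal.mk_set (α := Set ℕ)]
      exact Cardinal.cantor _
    have h2 : #(Set ℕ) = 𝔠 := by simp
    rw [← h2]
    exact h1
  have hcard : #(⋃ r, S r) < #KK := by
    calc #(⋃ r, S r) ≤ Cardinal.sum fun r => #(S r) := Cardinal.mk_iUnion_le_sum_mk
      _ ≤ Cardinal.sum fun _ : Set ℕ => ℵ₀ :=
          Cardinal.sum_le_sum _ _ fun r => Cardinal.le_aleph0_iff_set_countable.2 (hS r)
      _ = #(Set ℕ) * ℵ₀ := by simp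
      _ ≤ max (max #(Set ℕ) ℵ₀) ℵ₀ := Cardinal.mul_le_max _ _
      _ < #KK := by
          have h3 : #(Set ℕ) = 𝔠 := by simp
          rw [h3, max_lt_iff, max_lt_iff]
          exact ⟨⟨hK, Cardinal.aleph0_lt_continuum.trans hK⟩, Cardinal.aleph0_lt_continuum.trans hK⟩
  have hne : (⋃ r, S r) ≠ Set.univ := by
    intro h
    rw [h, Cardinal.mk_univ] at hcard
    exact lt_irrefl _ hcard
  obtain ⟨k, hk⟩ := (Set.ne_univ_iff_exists_notMem _).1 hne
  refine ⟨k, fun r N => ?_⟩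
  have hkr : k ∉ S r := fun h => hk (mem_iUnion.2 ⟨r, h⟩)
  rw [← le_bot_iff, ← hX r]
  have e6 := bs_jn (F := GK KK) (CS 6) (PS 6) (sem_CS 6) (A r) (A r) (hA r) (hA r)
  have e7 := bs_jn (F := GK KK) (CS 7) (PS 7) (sem_CS 7) _ (A r) (meas_sr k) (hA r)
  have h4 : bodyS (X r) f (ckk r) ⊓ (relv f (ckk r) N ⊓ (CS 7).bs (jn (bit (sr k)) (bit N))) ≤
      (CS 6).bs (jn (bit (X r)) (bit (X r))) ⊓ (CS 7).bs (jn (bit (sr k)) (bit (X r))) := by
    refine le_inf (inf_le_left.trans (inf_le_right.trans inf_le_left)) ?_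
    have h5 : bodyS (X r) f (ckk r) ⊓ relv f (ckk r) N ≤ N.eq (X r) := by
      refine le_trans (inf_le_inf_right _ ?_) himp_inf_le
      exact inf_le_right.trans (inf_le_right.trans (iInf_le _ N))
    have h6 := bor_congr CS 7 (sr k) N (sr k) (X r)
    rw [HSet.eq_refl, top_inf_eq] at h6
    exact le_trans (le_inf (le_trans (le_inf inf_le_left (inf_le_right.trans inf_le_left)) h5)
      (inf_le_right.trans inf_le_right)) h6
  refine h4.trans ?_
  rw [bit_sr, hXA r, e6.2, e7.2, ← el_inter e6.1 e7.1, le_bot_iff, el_eq_bot (e6.1.inter e7.1)]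
  refine Filter.mem_of_superset (fresh_series (hA r) (hS2 r) hkr hkr) ?_
  rintro z hz ⟨h8, h9⟩
  exact hz h8 h9

lemma bvalX_fLt (v : ℕ → HS) : bvalX CS fLt (scons AA v) = ⊤ := by
  classical
  rw [fLt, bvalX_all, eq_top_iff]
  refine le_iInf fun f => ?_
  obtain ⟨k, hk⟩ := exists_fresh_series f
  rw [bvalX_ex]
  refine le_iSup_of_le (sr k) ?_
  rw [bvalX_and, bvalX_and]
  refine le_inf (rlv_rn _).ge (le_inf ?_ ?_)
  · have e5 := bs_jn (F := GK KK) (CS 5) (PS 5) (sem_CS 5) _ _ (meas_sr k) (meas_sr k)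
    rw [bvalX_bor, scons_zero, bit_sr, e5.2, top_le_iff, el_eq_top e5.1]
    exact cond_series k k
  · rw [bvalX_all]
    refine le_iInf fun a => ?_
    have h1 := le_of_fm (B := BK) (fun r : Set ℕ => ckk r)
      (fun a => bvalX CS ((FmlX.ex (fBodyS 2 0)).imp (FmlX.all ((xRel 3 1 0).imp
        (FmlX.neg (FmlX.bor 7 2 0))))) (scons a (scons (sr k) (scons f (scons AA v)))))
      (fun x y => bvalX_congr_scons CS _ x y _) (fun r => ?_) a
    · rw [bvalX_imp, le_himp_iff, top_inf_eq]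
      simp only [bvalX_mem, scons_zero, scons_three]
      exact h1
    · simp only [bvalX_ex, bvalX_all, bvalX_imp, bvalX_bor, bvalX_neg, bvalX_xRel, bvalX_fBodyS,
        scons_zero, scons_one, scons_two, scons_three]
      rw [eq_top_iff, le_himp_iff, top_inf_eq]
      refine le_iInf fun N => ?_
      rw [le_himp_iff, le_compl_iff_disjoint_right, disjoint_iff, inf_assoc]
      exact hk r N

end names

/-- There is a countable well-founded model of `ZFC` in which `max {𝔰, cov(ℳ)} < 𝔰𝔰_cc`. -/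
theorem exists_ss_model : ∃ (M : Type) (E : M → M → Prop), Countable M ∧ WellFounded E ∧
    OmegaStd E ∧ IsZFC E ∧ MaxLtSScc E := by
  obtain ⟨M, E, h1, h2, h3, h4, h5⟩ := exists_model BK CS
  obtain ⟨w, _⟩ := h4.zf.infinity
  refine ⟨M, E, h1, h2, h3, h4, ss_of_sat E (fun _ => w) (h5 fSS (fun v => ?_) _)⟩
  rw [fSS, bvalX_ex, eq_top_iff]
  refine le_iSup_of_le AA ?_
  rw [bvalX_and, bvalX_and, bvalX_fSplit, bvalX_fCov, bvalX_fLt]
  simp

end Pool.Agent.Lib.RM48
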